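import Pool.Agent.Lib.MP_0da313_nt.CM.Defs
import Pool.Agent.Lib.MP_d610d0_nt.CH.D.Stm

set_option autoImplicit false

/-!
Project CM, section B: the Bombieri-Vinogradov theorem of level `1/2 - ε` for the primes and for the
sequences `cv α`. `R_x` is the conclusion, `S_x` the statement to be proved (with the results it uses
as hypotheses). `L = log X`, `wd lam X n = tri (lam * log (n / X))` vanishes unless
`X e^(-1/lam) < n < X e^(1/lam)` (so `X/3 < n < 3 X` for `lam ≥ 1`), for `n ≥ 1`. `lam ≥ 1` is fixed,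
`X` is large. `primChars R` (Lib/MP_89da58_nt/LargeSieve.lean) are the pairs `(r, χ)`, `2 ≤ r ≤ R`, `χ` a
primitive character modulo `r`. The statements marked CH.D are proved in
`Lib/MP_d610d0_nt/CH/D/p_*.lean` (see `Main.lean` there).
-/

namespace Pool.Agent.CM.B

open Finset Filter
open ArithmeticFunction (vonMangoldt)
open Pool.Agent.MP89da58 (tri primChars)
open Pool.Agent.CH (thP)

/-! ### Bilinear forms -/

/-- The bilinear large sieve with a window. -/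
def R_bil : Prop := ∃ C : ℝ, 1 ≤ C ∧ ∀ (lam X : ℝ) (M N R : ℕ) (a b : ℕ → ℂ), 0 < lam → 0 < X →
  ∑ p ∈ primChars R, ‖∑ m ∈ Icc 1 M, ∑ n ∈ Icc 1 N,
      a m * b n * p.2 ((m * n : ℕ) : ZMod p.1) * (wd lam X (m * n) : ℂ)‖
    ≤ C * Real.sqrt (((M : ℝ) + (R : ℝ) ^ 2) * ((N : ℝ) + (R : ℝ) ^ 2)) *
      Real.sqrt ((∑ m ∈ Icc 1 M, ‖a m‖ ^ 2) * ∑ n ∈ Icc 1 N, ‖b n‖ ^ 2)

/-- [CM bil] (uses CH.D ls, kf, kb) Proof: for `m, n ≥ 1`, `log (m n / X) = log m + log n - log X`, so by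
`R_kf`, `wd lam X (m n) = ∫ kap lam θ * m^(iθ) n^(iθ) X^(-iθ) dθ` and the inner double sum is
`∫ kap lam θ * X^(-iθ) * A_p(θ) * B_p(θ) dθ` with `A_p(θ) = ∑ a m * χ(m) * exp(iθ log m)`, `B_p` similarly
(finite sums, `χ` multiplicative). `|...| ≤ ∫ kap |A_p| |B_p|` (`kap ≥ 0`). Sum over `p`, Cauchy:
`∑_p |A_p| |B_p| ≤ (∑_p |A_p|^2)^(1/2) (∑_p |B_p|^2)^(1/2)`, and `R_ls` (`K = 0`, `Ioc 0 M = Icc 1 M`) with
`x m = a m exp(iθ log m)` gives `∑_p |A_p|^2 ≤ C (M + R^2) ∑ |a m|^2` for every `θ`. Finally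
`∫ kap lam = 1` (`R_kf` with `u = 0`, `tri 0 = 1`). Take `C` from `R_ls`. -/
def S_bil : Prop := CH.D.R_ls → CH.D.R_kf → CH.D.R_kb → R_bil

/-- One block, large conductors. -/
def R_blk : Prop := ∀ (lam : ℝ) (A : ℕ) (δ ε : ℝ), 1 ≤ lam → 0 < δ → 0 < ε → ∃ B : ℕ,
  ∀ᶠ X : ℝ in atTop, ∀ (R M N : ℕ) (a b : ℕ → ℂ), (Real.log X) ^ B ≤ R →
  (R : ℝ) ≤ X ^ (1 / 2 - ε : ℝ) → X ^ δ ≤ M → X ^ δ ≤ N → ((M * N : ℕ) : ℝ) ≤ 3 * X →
  ∑ m ∈ Icc 1 (2 * M), ‖a m‖ ^ 2 ≤ M * (Real.log X) ^ 6 →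
  ∑ n ∈ Icc 1 (2 * N), ‖b n‖ ^ 2 ≤ N * (Real.log X) ^ 6 →
  ∑ p ∈ primChars R, ‖∑ m ∈ Icc 1 (2 * M), ∑ n ∈ Icc 1 (2 * N),
      a m * b n * p.2 ((m * n : ℕ) : ZMod p.1) * (wd lam X (m * n) : ℂ)‖
    ≤ R * X / (Real.log X) ^ A

/-- [CM blk] (uses bil) Proof: by `R_bil` the left side is at most
`C sqrt((2M + R^2)(2N + R^2)) sqrt(M N) L^6 ≤ C L^6 (2 M N + R sqrt(2M) sqrt(MN) + R sqrt(2N) sqrt(MN) +
R^2 sqrt(MN))` (`sqrt(a + b) ≤ sqrt a + sqrt b`). `M N ≤ 3X`, `M ≤ 3 X^(1-δ)`, `N ≤ 3 X^(1-δ)`. With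
`B = A + 7`: `6 C X L^6 ≤ R X/(4 L^A)`; `C L^6 R sqrt 6 X^((1-δ)/2) sqrt(3X) ≤ R X/(4 L^A)` for large `X`;
`C L^6 R^2 sqrt(3X) ≤ C L^6 R X^(1/2-ε) sqrt(3X) ≤ R X/(4 L^A)`. (If `ε ≥ 1/2` there is nothing to do for
large `X`: `(log X)^B ≤ X^(1/2-ε) ≤ 1` is impossible; but the estimate above covers this case too.) -/
def S_blk : Prop := R_bil → R_blk

/-- Dyadic decomposition. -/
def R_dya : Prop := ∀ lam : ℝ, 1 ≤ lam → ∀ᶠ X : ℝ in atTop, ∀ (R U V : ℕ)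
  (f : (Σ q, DirichletCharacter ℂ q) → ℕ → ℕ → ℂ) (K : ℝ), 1 ≤ U → 1 ≤ V → 0 ≤ K →
  (∀ p m n, f p m n ≠ 0 → U < m ∧ V < n ∧ ((m * n : ℕ) : ℝ) ≤ 3 * X) →
  (∀ M N : ℕ, U ≤ M → V ≤ N → ((M * N : ℕ) : ℝ) ≤ 3 * X →
    ∑ p ∈ primChars R, ‖∑ m ∈ Ioc M (2 * M), ∑ n ∈ Ioc N (2 * N), f p m n‖ ≤ K) →
  ∑ p ∈ primChars R, ‖∑ m ∈ Icc 1 ⌊3 * X⌋₊, ∑ n ∈ Icc 1 ⌊3 * X⌋₊, f p m n‖
    ≤ (Real.log X) ^ 3 * K

/-- [CM dya] Proof: compare `CH/D/p_dya.lean`. `M_i = 2^i U`, `N_k = 2^k V`, `0 ≤ i, k < I`,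
`I = ⌊2 L⌋₊` (`2^I ≥ 3X` for large `X`: `2 log 2 > 1`). The blocks `Ioc M_i (2 M_i) × Ioc N_k (2 N_k)` are
disjoint and cover all `(m, n)` with `f p m n ≠ 0` (`m > U`, `m ≤ 3X ≤ 2^I U`), all of them with
`m, n ≤ 3X`. A block on which `f` does not vanish identically satisfies `M_i N_k < m n ≤ 3X`; the other
blocks contribute `0`. Triangle inequality: `≤ I^2 K ≤ 4 L^2 K ≤ L^3 K`. -/
def S_dya : Prop := R_dya

/-- Type I sums. -/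
def R_tI : Prop := ∀ (lam X : ℝ) (d N r : ℕ) (χ : DirichletCharacter ℂ r), 1 ≤ lam → 0 < X → 1 ≤ d →
  2 ≤ r → χ ≠ 1 →
  ‖∑ n ∈ Icc 1 N, χ (n : ZMod r) * (wd lam X (d * n) : ℂ)‖ ≤ 3 * r ∧
  ‖∑ n ∈ Icc 1 N, χ (n : ZMod r) * (Real.log n : ℂ) * (wd lam X (d * n) : ℂ)‖
    ≤ 4 * r * Real.log (N + 1)

/-- [CM tI] Proof: as `CH/D/p_tI.lean`. Abel summation with the partial sums of `χ` (at most `r`:
`norm_sum_Icc_char_le` in `Lib/MP_89da58_nt/LargeSieve.lean`): `|∑ χ(n) g(n)| ≤ r (|g(N)| +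
∑_{n<N} |g(n) - g(n+1)|)`. `g(n) = tri(lam log(d n/X))` is nondecreasing for `d n ≤ X` and nonincreasing
afterwards, with values in `[0,1]`, so its variation is at most `2`; the variation of `g(n) log n` is at
most `2 log N + log N`. -/
def S_tI : Prop := R_tI

/-! ### The two classes -/

/-- Large conductors for the von Mangoldt function. -/
def R_LL : Prop := ∀ (lam : ℝ) (A : ℕ) (ε : ℝ), 1 ≤ lam → 0 < ε → ∃ B : ℕ,
  ∀ᶠ X : ℝ in atTop, ∀ R : ℕ, (Real.log X) ^ B ≤ R → (R : ℝ) ≤ X ^ (1 / 2 - ε : ℝ) →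
  ∑ p ∈ primChars R, ‖∑ n ∈ Icc 1 ⌊3 * X⌋₊, (vonMangoldt n : ℂ) * p.2 (n : ZMod p.1) *
    (wd lam X n : ℂ)‖ ≤ R * X / (Real.log X) ^ A

/-- [CM LL] (uses blk, dya, tI, CH.D vau) Proof: compare `CH/D/p_LL.lean`. One may assume `ε ≤ 1/2` (for
`ε > 1/2` and large `X` there is no `R`). `U = V = ⌊X^(ε/4)⌋₊`, `CH.D.R_vau` with `X' = ⌊3X⌋₊` and
`w n = χ(n) wd lam X n` for `n ≥ 1`, `w 0 = 0` (zero for `n ≤ U < X/3` and for `n > 3X`). For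
`p ∈ primChars R`, by `R_tI` (`p.2 ≠ 1`): the first sum is at most `V * 4R log(3X+1)`, the second at most
`U V * log(3X) * 3R`; there are at most `R^2` characters (`card_primChars`), so together at most
`R^2 * 14 R X^(ε/2) L ≤ R X^(1-2ε) * 14 X^(ε/2) L ≤ R X/(2 L^A)`. Third sum: `R_dya` with
`f p m n = (if U < m then Λ m else 0) * e n * χ(mn) * wd lam X (mn)` and for each block `R_blk` with
`δ = ε/5`, `A + 4`, and the restrictions of the coefficients to `(M, 2M]`, `(N, 2N]`: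
`∑ Λ^2 ≤ 2M (log 6X)^2 ≤ M L^6`, `∑ τ^2 ≤ 2N (1 + log 2N)^3 ≤ N L^6` (`sum_tau_sq`, as in `CH/D/p_LL.lean`). -/
def S_LL : Prop := R_blk → R_dya → R_tI → CH.D.R_vau → R_LL

/-- [CM LCP] (uses LL) Large conductors for `log p` on the primes. Proof: let `f = thP`. For
`n ∈ Icc 1 ⌊3X⌋₊` with `thP n ≠ 0`, `wd lam X n ≠ 0`: `n` is a prime `> X/3 > X^(2/3) ≥ s`, so it is coprime
to `s` and `Tw thP lam X s χ = ∑_{n ≤ 3X} thP n χ(n) wd lam X n`. Replace `thP` by `Λ`: the difference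
`Λ - thP` is `≥ 0` and supported on proper prime powers, its sum over `n ≤ 3X` is at most
`C sqrt X log X` (Chebyshev functions in Mathlib: `Chebyshev.abs_psi_sub_theta_le_sqrt_mul_log` or similar;
compare `CH/D/p_pp.lean`; the bound `X^(3/5)` would not be enough). There are at most `R^2` characters
(`card_primChars`), `R^2 C sqrt X log X ≤ R X^(1-ε) C log X ≤ R X/(2 L^A)`. `R_LL` with `A + 1`. -/
def S_LCP : Prop := R_LL → ∀ lam : ℝ, 1 ≤ lam → LC CP lam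

/-- [CM SCP] (uses CH.D pwp) Small conductors for `log p` on the primes. Proof: as in `S_LCP` the condition
`n.Coprime s` can be dropped. `CH.D.R_pwp` with `A + 2`, `B + 1`, `κ = 1`, `τ = 0` (`pz (-0) n = 1` for all `n`:
`exp 0`), `M = 3X` (`r ≥ 2`; `(log X)^B ≤ (log 3X)^(B+1)`): `|∑_{n ∈ Ioc M1 M2, prime} χ(n)| ≤ 3X/L^(A+2)` for all
`M1, M2 ≤ 3X`. Abel summation with `g(n) = log n * wd lam X n` on `1 ≤ n ≤ 3X`, of variation at most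
`4 log(3X)`: total at most `5 log(3X) * 3X/L^(A+2) ≤ X/L^A`. -/
def S_SCP : Prop := CH.D.R_pwp → ∀ lam : ℝ, 1 ≤ lam → SC CP lam

/-- [CM LCA] (uses blk, dya) Large conductors for `cv α`. Proof: `f = cv α`, `Alp X α`. Then
`Tw f lam X s χ = ∑_{k ≤ 3X} ∑_{p ≤ 3X} a k * b p * χ(k p) * wd lam X (k p)` with `a k = α k` if `k` is
coprime to `s` (else `0`), `b p = 1` if `p` is a prime not dividing `s` (else `0`): the pairs `(k, p)` with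
`k p = n` are the divisors `k` of `n`, `p = n/k`; `k p` is coprime to `s` iff both are; the pairs with
`k p > 3X` have `wd = 0`. `R_dya` with `U = V = ⌊X^(1/5)⌋₊`: if `a k ≠ 0`, `wd lam X (k p) ≠ 0` then
`k ≥ X^(1/4) > U`, `k ≤ X^(3/4)`, `p > X/(3k) ≥ X^(1/4)/3 > V`, `k p ≤ 3X`. For each block `R_blk` with
`δ = 1/6`, `A + 4` and the restrictions of `a`, `b` to `(M, 2M]`, `(N, 2N]` (all coefficients in `[0,1]`). -/
def S_LCA : Prop := R_blk → R_dya → ∀ lam : ℝ, 1 ≤ lam → LC CA lam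

/-- [CM SCA] (uses CH.D pwp) Small conductors for `cv α`. Proof: with the notation of `S_LCA`,
`Tw f lam X s χ = ∑_k a k χ(k) ∑_{p ≤ 3X/k} b p χ(p) wd lam (X/k) p` (`wd lam X (k p) = wd lam (X/k) p`).
`a k ≠ 0` implies `X^(1/4) ≤ k ≤ X^(3/4)`. Dropping the condition `p ∤ s`: the primes `p > X^(1/4)/3` dividing
`s ≤ X^(2/3)` are at most `3` in number (for large `X`: `(X^(1/4)/3)^3 > X^(2/3)`), they contribute at most
`3` for each `k`, in total `3 X^(3/4)`. For the full sum over `p`: `CH.D.R_pwp` with `A + 3`, `B + 1`, `κ = 1`,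
`τ = 0`, `M = 3X/k ≥ X^(1/4)` (so `log M ≥ L/4`, and `(log X)^B ≤ (log M)^(B+1)` for large `X`) and Abel
summation with `wd lam (X/k) p` (variation `≤ 2`): at most `3 * (3X/k)/(L/4)^(A+3)`. Sum over `k`:
`∑_{k ≤ X} 1/k ≤ 1 + L`. Total `≤ 3 X^(3/4) + 9 * 4^(A+3) X (1 + L)/L^(A+3) ≤ X/L^A`. -/
def S_SCA : Prop := CH.D.R_pwp → ∀ lam : ℝ, 1 ≤ lam → SC CA lam

/-- [CM okP] Trivial bounds for the two classes. Proof: `thP n ≤ log(3X) ≤ 2 L`; if `thP n ≠ 0`,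
`wd lam X n ≠ 0` then `n` is a prime `> X/3 ≥ X^(1/20)`, `p ∣ n` gives `p = n`. `cv α n ≥ 0`;
`cv α n ≤ #{k ∣ n : n/k prime}`, which is the number of prime divisors of `n` (`k ↦ n/k`), so
`2^(cv α n) ≤ n ≤ 3X` in the obvious sense, `cv α n ≤ log(3X)/log 2 ≤ 2 L` for large `X`. If `cv α n ≠ 0`
there is `k ∣ n` with `α k ≠ 0`, `q = n/k` prime; if moreover `wd lam X n ≠ 0` then `n > X/3`,
`q > X/(3k) ≥ X^(1/4)/3 ≥ X^(1/20)`; a prime `p ∣ n` divides `k` (then `p ≥ X^(1/20)` by `Alp.rg`) or is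
`q`. -/
def S_ok : Prop := ∀ lam : ℝ, 1 ≤ lam → Ok CP lam ∧ Ok CA lam

/-! ### From characters to residue classes -/

/-- One modulus. -/
def R_one : Prop := ∀ (f : ℕ → ℝ) (lam X : ℝ) (Q a : ℕ), 1 ≤ Q → a.Coprime Q →
  er (fun n => f n * wd lam X n) ⌊3 * X⌋₊ Q a ≤ 1 / (Nat.totient Q : ℝ) *
    (∑ r ∈ Q.divisors.filter (fun r => 2 ≤ r), pS f lam X (Q / r) r +
      ∑ n ∈ (Icc 1 ⌊3 * X⌋₊).filter (fun n => ¬ n.Coprime Q), |f n * wd lam X n|)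

/-- [CM one] Proof: compare `totient_mul_psiAPL`, `ap_leL`, `psiChiL_sub_le`, `sum_primL_le` in
`Lib/MP_0da313_nt/BV/BvL.lean` and `CH/D/p_chr.lean`, `p_grp.lean`. Let `h n = f n * wd lam X n`. Orthogonality
(`DirichletCharacter.sum_char_inv_mul_char_eq`): `φ(Q) sA h N Q a = ∑_χ χ⁻¹(a) ∑_{n ≤ N} h n χ(n)`, sum over all
characters modulo `Q`. The principal character gives `∑_{n ≤ N, (n,Q)=1} h n`, which differs from
`sT h N` by the last sum of the statement. A character `χ ≠ 1` is induced by a unique primitive `χ'`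
modulo `r`, `r ∣ Q`, `r ≥ 2` (conductor), `χ(n) = χ'(n)` if `(n, Q) = 1` and `0` otherwise. For
`r ∣ Q`: `(n, Q) = 1` iff `(n, r) = 1` and `(n, Q/r) = 1`, and `χ'(n) = 0` if `(n, r) ≠ 1`; so
`∑_{n ≤ N} h n χ(n) = Tw f lam X (Q/r) χ'`. Sum of the norms over `χ ≠ 1`. -/
def S_one : Prop := R_one

/-- Exchange of the sums. -/
def R_swp : Prop := ∀ (f : ℕ → ℝ) (lam X : ℝ) (Y : ℕ),
  ∑ Q ∈ Icc 1 Y, 1 / (Nat.totient Q : ℝ) *
      ∑ r ∈ Q.divisors.filter (fun r => 2 ≤ r), pS f lam X (Q / r) r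
    ≤ ∑ s ∈ Icc 1 Y, 1 / (Nat.totient s : ℝ) * ∑ r ∈ Icc 2 Y,
      1 / (Nat.totient r : ℝ) * pS f lam X s r

/-- [CM swp] Proof: compare `sum_swapL_le` in `BV/BvL.lean`. `Q = r s`; the map `(Q, r) ↦ (Q/r, r)` is
injective with values in `Icc 1 Y × Icc 2 Y`, `1/φ(r s) ≤ 1/(φ(r) φ(s))`
(`Nat.totient_super_multiplicative`), `pS ≥ 0`. -/
def S_swp : Prop := R_swp

/-- All conductors. -/
def R_con : Prop := ∀ (C : ℝ → (ℕ → ℝ) → Prop) (lam : ℝ), LC C lam → SC C lam →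
  ∀ (A : ℕ) (ε : ℝ), 0 < ε → ∀ᶠ X : ℝ in atTop, ∀ f, C X f → ∀ s Y : ℕ, 1 ≤ s →
  (s : ℝ) ≤ X ^ (2 / 3 : ℝ) → (Y : ℝ) ≤ X ^ (1 / 2 - ε : ℝ) →
  ∑ r ∈ Icc 2 Y, 1 / (Nat.totient r : ℝ) * pS f lam X s r ≤ X / (Real.log X) ^ A

/-- [CM con] Proof: let `B` be the exponent of `LC` for `A + 5` (and `ε`); enlarging `B` is allowed:
assume `B ≥ 1`. `R0 = ⌈L^B⌉₊`. Small conductors `r ≤ min(R0, Y)`: `SC` with `A'' = A + 3B + 5`, `B + 1`: each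
of the at most `r` primitive characters gives `≤ X/L^A''`, so `(1/φ(r)) pS ≤ r X/L^A''` and the sum is at
most `(R0+1)^2 X/L^A'' ≤ X/(2 L^A)`. Large: if `Y > R0`, blocks `R_(i-1) < r ≤ R_i`, `R_i = min(2^i R0, Y)`,
`1 ≤ i ≤ 2L`; `∑_{r ≤ R_i} pS f lam X s r = ∑_{p ∈ primChars R_i} ‖Tw‖` (`primChars` is a sigma set, see the
end of `Large.lean` in Lib/MP_89da58_nt) `≤ R_i X/L^(A+5)` by `LC` (`L^B ≤ R_i ≤ Y`), and in the block
`1/φ(r) ≤ 4 (log r + 1)/r ≤ 8 (L + 1)/R_i` (a lower bound for `φ`: `inv_totient_le` in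
`Lib/MP_89da58_nt/Bv.lean`; any bound `1/φ(r) ≤ C (log r + 1)/r` or `C (log r+1)^2/r` will do). So each
block contributes at most `8 (L+1) X/L^(A+5)`, there are at most `2L` blocks. -/
def S_con : Prop := R_con

/-- The integers which are not coprime to the modulus. -/
def R_cop : Prop := ∀ (C : ℝ → (ℕ → ℝ) → Prop) (lam : ℝ), Ok C lam → ∀ A : ℕ,
  ∀ᶠ X : ℝ in atTop, ∀ f, C X f → ∀ Y : ℕ, (Y : ℝ) ≤ X ^ (1 / 2 : ℝ) →
  ∑ Q ∈ Icc 1 Y, 1 / (Nat.totient Q : ℝ) *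
    ∑ n ∈ (Icc 1 ⌊3 * X⌋₊).filter (fun n => ¬ n.Coprime Q), |f n * wd lam X n|
    ≤ X / (Real.log X) ^ A

/-- [CM cop] Proof: if `n` is not coprime to `Q` and `f n * wd lam X n ≠ 0`, there is a prime `p ∣ Q`,
`p ∣ n`, and `p ≥ X^(1/20)` by `Ok`. There are at most `20` primes `p ≥ X^(1/20)` dividing `Q ≤ X` and at
most `3X/p ≤ 3 X^(19/20)` multiples of `p` up to `3X`; each term is at most `2L` (`0 ≤ wd ≤ 1`). So the
inner sum is at most `120 L X^(19/20)`, and `∑_{Q ≤ Y} 1/φ(Q) ≤ C (L + 1)^2` (`sum_inv_totient_le` in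
`Lib/MP_89da58_nt/Bv.lean`). -/
def S_cop : Prop := R_cop

/-- The theorem of Bombieri and Vinogradov without weights. -/
def R_bv1 : Prop := ∀ (C : ℝ → (ℕ → ℝ) → Prop) (lam : ℝ), LC C lam → SC C lam → Ok C lam →
  ∀ (A : ℕ) (ε : ℝ), 0 < ε → ∀ᶠ X : ℝ in atTop, ∀ f, C X f → ∀ (Y : ℕ) (a : ℕ → ℕ),
  (Y : ℝ) ≤ X ^ (1 / 2 - ε : ℝ) → (∀ q, (a q).Coprime q) →
  ∑ q ∈ Icc 1 Y, er (fun n => f n * wd lam X n) ⌊3 * X⌋₊ q (a q) ≤ X / (Real.log X) ^ A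

/-- [CM bv1] (uses one, swp, con, cop) Proof: `R_one` for every `q ≤ Y`, `R_swp`, `R_con` with `A + 4` for every
`s ≤ Y ≤ X^(2/3)` (`1/2 - ε ≤ 2/3`), `∑_{s ≤ Y} 1/φ(s) ≤ C (L+1)^2`, and `R_cop` with `A + 1`. -/
def S_bv1 : Prop := R_one → R_swp → R_con → R_cop → R_bv1

/-- The theorem of Bombieri and Vinogradov with weights and a fixed factor of the moduli. -/
def R_bv : Prop := ∀ (C : ℝ → (ℕ → ℝ) → Prop) (lam : ℝ), LC C lam → SC C lam → Ok C lam → BVc C lam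

/-- [CM bv] (uses bv1) Proof: compare `bv_weightedL` in `Lib/MP_0da313_nt/BV/BvWL.lean`. Let
`E(q) = er (fun n => f n * wd lam X n) ⌊3X⌋₊ (W q) (a q)`, `q ≤ X^(1/2-ε)`. Trivial bound: `0 ≤ f n wd ≤ 2L`
(`Ok`) and the number of `n ≤ 3X` in the class is at most `3X/(W q) + 1 ≤ 4X/q`, and
`sT ≤ 2L * 3X`, `1/φ(W q) ≤ C (L+1)/q`-type bound (`inv_totient_le`), so `E(q) ≤ C X L^3/q`. Cauchy:
`∑ b^ω(q) E(q) ≤ (∑ b^(2ω(q)) E(q))^(1/2) (∑ E(q))^(1/2)`; the first factor: squarefree `q`,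
`∑_{q ≤ X} (b^2)^ω(q)/q ≤ (1 + L)^(b^2)` (as in `bv_weightedL`; `(b^2)^ω(q)` is at most the number of ways to
write `q` as an ordered product of `b^2` factors), the second: the moduli `Q = W q ≤ W X^(1/2-ε) ≤
X^(1/2-ε/2)` are distinct, so `∑ E(q) ≤ ∑_{Q ≤ Y} er(Q, a'(Q))` with `a'(Q) = a(Q/W)` if `W ∣ Q` and `1`
otherwise (coprime to `Q`), `R_bv1` with `A' = 2A + b^2 + 10` and `ε/2`. -/
def S_bv : Prop := R_bv1 → R_bv

/-- Final result of the section: the two classes. -/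
def R_B : Prop := ∀ lam : ℝ, 1 ≤ lam → BVc CP lam ∧ BVc CA lam

end Pool.Agent.CM.B
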