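import Pool.Agent.Lib.MP_0da313_nt.CM.F

set_option autoImplicit false

/-!
Project CM, section C: the corollary for the numbers `a n + 1`, `n` prime.
-/

namespace Pool.Agent.CM.C

open Finset Filter
open ArithmeticFunction (cardFactors)

/-- A lower bound for the singular product. -/
def R_sv : Prop := ∀ k : ℕ, ∃ c : ℝ, 0 < c ∧ ∀ n : ℕ, 2 ≤ n → ∀ w : ℕ → ℕ,
  (∀ p : ℕ, p.Prime → w p ≤ k ∧ w p < p) →
  c / (Real.log n) ^ k ≤ ∏ p ∈ (Icc 1 n).filter Nat.Prime, (1 - (w p : ℝ) / p)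

/-- [CM sv] (uses CH.P mer2) Proof: for `p ≤ 2 k` the factor is at least `1/p ≥ 1/(2k)`, so the product of
these factors is at least `(1/(2k))^(2k)`. For `p > 2k`: `1 - w/p ≥ exp(-w/p - (w/p)^2) ≥ exp(-k/p - k^2/p^2)`
(`log(1-t) ≥ -t - t^2` for `0 ≤ t ≤ 1/2`), `∑ 1/p^2 ≤ 2`, and `∑_{p ≤ n} 1/p ≤ log log n + C` by `CH.P.R_mer2`
with `a = 2` (`log 2 > 0` fixed; the prime `2` separately; for `n = 2` directly). The case `k = 0` is trivial. -/
def S_sv : Prop := CH.P.R_mer2 → R_sv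

open Classical in
/-- The corollary for the numbers `a n + 1`, `n` prime. -/
def R_cor : Prop := ∃ c0 : ℝ, 0 < c0 ∧ ∀ s : ℕ, 1 ≤ s → ∃ (B : ℕ) (c : ℝ), 0 < c ∧
  ∀ A : Finset ℕ, A.card = s → (∀ a ∈ A, 0 < a) →
  (¬ ∃ p : ℕ, p.Prime ∧ ∀ n : ℕ, 1 ≤ n → p ∣ n * ∏ a ∈ A, (a * n + 1)) →
  ∀ A' : Finset ℕ, A' ⊆ A → A'.Nonempty → ∃ x₀ : ℝ, ∀ x : ℝ, x₀ ≤ x →
  c * x / (Real.log x) ^ (s + 1) ≤
    (((Finset.range (⌊x⌋₊ + 1)).filter (fun n : ℕ => n.Prime ∧
      c0 * Real.log A'.card ≤ ((A'.filter (fun a => cardFactors (a * n + 1) ≤ 2)).card : ℝ) ∧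
      1 ≤ (A'.filter (fun a => cardFactors (a * n + 1) ≤ 2)).card ∧
      ∀ a ∈ A, cardFactors (a * n + 1) ≤ B ∧
        ∀ p ∈ (a * n + 1).primeFactors, x < (p : ℝ) ^ B)).card : ℝ)

/-- [CM cor] (uses fin, sv) Proof: `c0` from `F.R_final`; for `s` apply `F.R_final` with `m = s + 1`, `d = 1`:
`B`, `c`. Let `a_j`, `j : Fin s`, be the elements of `A` (`A.equivFinOfCardEq` or `A.orderEmbOfFin`), and
`f : Fin (s + 1) → MvPolynomial (Fin 2) ℤ` with `f 0 = X 0`, `f j.succ = C a_j * X 0 + 1` (`Fin.cons`). Then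
`val (f k) x y` is `x` resp. `a_j x + 1`, `lineRestrict (f k) n` is `X` resp. `C a_j * X + 1`: irreducible
(linear, primitive). `Admissible f`: if a prime `p` divided `∏_k g_k(x)` for all integers `x`, it would divide
`n ∏_{a ∈ A} (a n + 1)` for all `n ≥ 1`. Total degrees `≤ 1`; the members are pairwise different and not
opposite (evaluate at `0` and `1`; `a_j ≥ 1` distinct). `k0 = 0`, `I` = the indices `j.succ` with
`a_j ∈ A'`, nonempty, `|I| = |A'|`. For `x ≥ x0` and `n = ⌊x⌋₊`: the points `x'` of `F.R_final`, `0 < x' < n`, are primes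
with the asserted properties (`n < p^B` implies `x < n + 1 ≤ p^B`). `singV f n`: `nroots f n p ≤ s + 1` (each
factor has at most one root modulo `p`, it is linear and does not vanish identically) and `< p`
(`Admissible`); `R_sv` with `k = s + 1`; `n ≥ x/2`, `log n ≤ log x`. The constant is `c c'/2`, with `c'` from `R_sv`.
(`R_final` gives `cardFactors ≤ B * 1`.) -/
def S_cor : Prop := F.R_final → R_sv → R_cor

end Pool.Agent.CM.C
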