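import Pool.Agent.Lib.MP_d610d0_nt.CH.D.Defs
import Pool.Agent.Lib.MP_d610d0_nt.CH.S.Defs
import Pool.Agent.Lib.MP_0da313_nt.MT.Zb
import Pool.Agent.Lib.MP_0da313_nt.MT.Defs

set_option autoImplicit false

/-!
Project CM (Chen and Maynard on the line `x + y = n`): common definitions.
-/

namespace Pool.Agent.CM

open Finset Filter Polynomial
open Pool.Agent.MP89da58 (tri primChars bil pw nn supp part kapD)
open Pool.Agent.BVall (om rhoW PK lev RepB Dens)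
open Pool.Agent.MT (PJf LocD dvI ZI Dl sp)
open Pool.Agent.Lib.MP_0da313_nt (W)
open Pool.Agent.CH (thP)
open Pool.Agent.CH.S (th Pr gd RepC)

/-! ### Windows and sequences -/

/-- The window of logarithmic half width `1/lam` centred at `X`. (Careful: `wd lam X 0 = 1`.) -/
noncomputable def wd (lam X : ℝ) (n : ℕ) : ℝ := tri (lam * Real.log (n / X))

/-- The sum over a residue class. -/
noncomputable def sA (a : ℕ → ℝ) (N q b : ℕ) : ℝ :=
  ∑ n ∈ (Icc 1 N).filter (fun n => n ≡ b [MOD q]), a n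

/-- The total sum. -/
noncomputable def sT (a : ℕ → ℝ) (N : ℕ) : ℝ := ∑ n ∈ Icc 1 N, a n

/-- The error term of a residue class. -/
noncomputable def er (a : ℕ → ℝ) (N q b : ℕ) : ℝ := |sA a N q b - sT a N / (Nat.totient q : ℝ)|

/-- `cv α m` is the sum of `α k` over the representations `m = k p`, `p` prime. -/
noncomputable def cv (α : ℕ → ℝ) (m : ℕ) : ℝ :=
  ∑ k ∈ m.divisors, α k * (if (m / k).Prime then 1 else 0)

/-- The coefficients which are allowed in `cv`. -/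
structure Alp (X : ℝ) (α : ℕ → ℝ) : Prop where
  nn : ∀ k, 0 ≤ α k
  le : ∀ k, α k ≤ 1
  lo : ∀ k, α k ≠ 0 → X ^ (1 / 4 : ℝ) ≤ k
  hi : ∀ k, α k ≠ 0 → (k : ℝ) ≤ X ^ (3 / 4 : ℝ)
  rg : ∀ k, α k ≠ 0 → ∀ p : ℕ, p.Prime → p ∣ k → X ^ (1 / 20 : ℝ) ≤ p

/-- The class of sequences: `log` on the primes. -/
def CP (_ : ℝ) (f : ℕ → ℝ) : Prop := f = thP

/-- The class of sequences `cv α`. -/
def CA (X : ℝ) (f : ℕ → ℝ) : Prop := ∃ α, Alp X α ∧ f = cv α

/-- The twisted sum over the integers coprime to `s`. -/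
noncomputable def Tw (f : ℕ → ℝ) (lam X : ℝ) (s : ℕ) {r : ℕ} (χ : DirichletCharacter ℂ r) : ℂ :=
  ∑ n ∈ (Icc 1 ⌊3 * X⌋₊).filter (fun n => n.Coprime s),
    (f n : ℂ) * χ (n : ZMod r) * (wd lam X n : ℂ)

/-- The sum of `‖Tw f lam X s χ‖` over the primitive characters modulo `r`. -/
noncomputable def pS (f : ℕ → ℝ) (lam X : ℝ) (s r : ℕ) : ℝ :=
  ∑ χ : DirichletCharacter ℂ r, Set.indicator {χ | χ.IsPrimitive} (fun χ => ‖Tw f lam X s χ‖) χ

/-- Large conductors are under control for the class `C`. -/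
def LC (C : ℝ → (ℕ → ℝ) → Prop) (lam : ℝ) : Prop := ∀ (A : ℕ) (ε : ℝ), 0 < ε → ∃ B : ℕ,
  ∀ᶠ X : ℝ in atTop, ∀ f, C X f → ∀ R s : ℕ, (Real.log X) ^ B ≤ R →
  (R : ℝ) ≤ X ^ (1 / 2 - ε : ℝ) → 1 ≤ s → (s : ℝ) ≤ X ^ (2 / 3 : ℝ) →
  ∑ p ∈ primChars R, ‖Tw f lam X s p.2‖ ≤ R * X / (Real.log X) ^ A

/-- Small conductors are under control for the class `C`. -/
def SC (C : ℝ → (ℕ → ℝ) → Prop) (lam : ℝ) : Prop := ∀ A B : ℕ, ∀ᶠ X : ℝ in atTop,
  ∀ f, C X f → ∀ s : ℕ, 1 ≤ s → (s : ℝ) ≤ X ^ (2 / 3 : ℝ) →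
  ∀ (r : ℕ) (χ : DirichletCharacter ℂ r), 2 ≤ r → (r : ℝ) ≤ (Real.log X) ^ B → χ.IsPrimitive →
  ‖Tw f lam X s χ‖ ≤ X / (Real.log X) ^ A

/-- Trivial bounds for the class `C`. -/
def Ok (C : ℝ → (ℕ → ℝ) → Prop) (lam : ℝ) : Prop := ∀ᶠ X : ℝ in atTop, ∀ f, C X f →
  (∀ n, 0 ≤ f n) ∧ (∀ n ∈ Icc 1 ⌊3 * X⌋₊, f n ≤ 2 * Real.log X) ∧
  ∀ n ∈ Icc 1 ⌊3 * X⌋₊, f n ≠ 0 → wd lam X n ≠ 0 →
    ∀ p : ℕ, p.Prime → p ∣ n → X ^ (1 / 20 : ℝ) ≤ p

/-- The Bombieri-Vinogradov theorem of level `1/2 - ε` for the class `C`. -/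
def BVc (C : ℝ → (ℕ → ℝ) → Prop) (lam : ℝ) : Prop := ∀ (A W b : ℕ) (ε : ℝ), 1 ≤ W → 0 < ε →
  ∀ᶠ X : ℝ in atTop, ∀ f, C X f → ∀ a : ℕ → ℕ, (∀ q, (a q).Coprime (W * q)) →
  ∑ q ∈ (Icc 1 ⌊X ^ (1 / 2 - ε : ℝ)⌋₊).filter Squarefree, (b : ℝ) ^ q.primeFactors.card *
    er (fun n => f n * wd lam X n) ⌊3 * X⌋₊ (W * q) (a q) ≤ X / (Real.log X) ^ A

/-- `∫ tri (lam log t) dt`. -/
noncomputable def mu (lam : ℝ) : ℝ := 2 * lam * (Real.cosh (1 / lam) - 1)

/-! ### The parameters for a given `n` -/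

/-- The sifting limit `n^(1/11)`. -/
noncomputable def kz (n : ℕ) : ℕ := ⌈(n : ℝ) ^ (1 / 11 : ℝ)⌉₊

/-- The limit `(C n)^(1/3)`. -/
noncomputable def ky (C n : ℕ) : ℕ := ⌈((C * n : ℕ) : ℝ) ^ (1 / 3 : ℝ)⌉₊

/-- The level `n^(273/550)` of the linear sieve. -/
noncomputable def lD (n : ℕ) : ℝ := (n : ℝ) ^ (273 / 550 : ℝ)

/-- The sifting limit `n^(91/550)` (the third root of the level). -/
noncomputable def k3 (n : ℕ) : ℕ := ⌈(n : ℝ) ^ (91 / 550 : ℝ)⌉₊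

open Classical in
/-- The products `k = p1 p2` of the switched sum. -/
noncomputable def al (C n k : ℕ) : ℝ := if ∃ p1 p2 : ℕ, p1.Prime ∧ p2.Prime ∧ k = p1 * p2 ∧
  kz n ≤ p1 ∧ p1 < ky C n ∧ ky C n ≤ p2 ∧ p1 * p2 ^ 2 ≤ C * n then 1 else 0

/-! ### The sieve functions -/

/-- The combined lower bound sieve with the first Chen weight. -/
noncomputable def F12 (Fp Fm : (ℕ → ℝ) → ℝ) (a z y : ℕ) (D : ℝ) (ρ : ℕ → ℝ) : ℝ :=
  Fp ρ * th a ρ z false D + Fm ρ * th a ρ z true D - Fp ρ * th a ρ z true D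
    - 1 / 2 * (Fp ρ * ∑ q ∈ Pr z y, ρ q * th a ρ z true (D / q))

/-- The combined upper bound sieve. -/
noncomputable def F3 (Fp : (ℕ → ℝ) → ℝ) (a z : ℕ) (D : ℝ) (ρ : ℕ → ℝ) : ℝ := Fp ρ * th a ρ z true D

/-- The numerical value of the upper bound for the sum over `q` in the Chen weight. -/
noncomputable def T2n (u : ℝ → ℝ) : ℝ :=
  ∑ i ∈ Icc (90 : ℕ) 222, (1 + u ((i : ℝ) / 50)) *
    ((2 * (272 - (i : ℝ)) + 1) / (2 * (272 - (i : ℝ)) * (273 - (i : ℝ))))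
  + (1 + u (89 / 50)) * ((550 / 549 - 549 / 550) / 2)

/-! ### Families of configurations -/

/-- The data attached to an admissible family: `none` is the member which is to be prime, the
`some i` are the members among which many should be `P_2`. The linear forms are
`u l * x + (b l * n + c l)`; they are positive near `x = xi * n`; the window is `|x - xi n| ≤ hw n`. -/
structure Fam (ι : Type) [Fintype ι] [DecidableEq ι] (D : ℕ) where
  N0 : ℕ
  G : ℕ → ℤ[X]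
  Gc : ℕ → Option ι → ℤ[X]
  u : Option ι → ℤ
  b : Option ι → ℤ
  c : Option ι → ℤ
  xi : ℝ
  hw : ℝ
  hG : ∀ n, N0 ≤ n → ∀ l, G n = (C (u l) * X + C (b l * n + c l)) * Gc n l
  hdeg : ∀ n, N0 ≤ n → (G n).natDegree ≤ D
  hloc : ∀ n, N0 ≤ n → ∀ p : ℕ, p.Prime → ¬ ∀ x : ℤ, (p : ℤ) ∣ (G n).eval x
  hu : ∀ l, u l ≠ 0
  huv : ∀ n : ℕ, N0 ≤ n → ∀ l, IsCoprime (u l) (b l * n + c l)
  hdet : ∀ n : ℕ, N0 ≤ n → ∀ l l', l ≠ l' →
    u l * (b l' * n + c l') - u l' * (b l * n + c l) ≠ 0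
  hhw : 0 < hw
  hxi0 : 4 * hw ≤ xi
  hxi1 : xi ≤ 1 - 4 * hw
  hth : ∀ l, 1000 * (|(u l : ℝ)| * hw) ≤ u l * xi + b l

namespace Fam

variable {ι : Type} [Fintype ι] [DecidableEq ι] {D : ℕ} (F : Fam ι D)

/-- The constant coefficient of the form `l`. -/
def v (n : ℕ) (l : Option ι) : ℤ := F.b l * n + F.c l

/-- The value of the form `l`. -/
def L (n : ℕ) (l : Option ι) (x : ℤ) : ℤ := F.u l * x + F.v n l

/-- The slope of the centre of the window. -/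
noncomputable def t (l : Option ι) : ℝ := F.u l * F.xi + F.b l

/-- The centre of the window of the form `l`. -/
noncomputable def X (n : ℕ) (l : Option ι) : ℝ := F.t l * n + F.c l

/-- The width of the window of the form `l`: `1` for the form `none`, `99/100` for the others. -/
noncomputable def la (l : Option ι) : ℝ :=
  (if l = none then 1 else 99 / 100) * (F.t l / (|(F.u l : ℝ)| * F.hw))

/-- The window of the form `l`. -/
noncomputable def wi (n : ℕ) (l : Option ι) (N : ℕ) : ℝ := wd (F.la l) (F.X n l) N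

/-- The sequence of the form `none`. -/
noncomputable def a0 (n N : ℕ) : ℝ := thP N * F.wi n none N

/-- The sequence of the form `some i`. -/
noncomputable def a3 (C n : ℕ) (i : ι) (N : ℕ) : ℝ := cv (al C n) N * F.wi n (some i) N

/-- The last index of the sequence of the form `l`. -/
noncomputable def NX (n : ℕ) (l : Option ι) : ℕ := ⌊3 * F.X n l⌋₊

/-- The condition at the prime `p` for the form `l'`, relative to the form `l`. -/
def Q (n z : ℕ) (l l' : Option ι) (p : ℕ) (y : ℤ) : Prop :=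
  (if p ≤ z then (p : ℤ) ∣ (F.Gc n l).eval y else (p : ℤ) ∣ F.L n l' y) ∧ ¬ (p : ℤ) ∣ F.L n l y

open Classical in
/-- The indicator function of the condition. -/
noncomputable def ri (n z : ℕ) (l l' : Option ι) (y : ℤ) (p : ℕ) : ℝ :=
  if F.Q n z l l' p y then 1 else 0

open Classical in
/-- The density: the exact one for `p ≤ z`, and `1/(p-1)` for `p > z`. -/
noncomputable def rd (n z : ℕ) (l : Option ι) (p : ℕ) : ℝ :=
  if p ≤ z then rhoW (F.u l).natAbs (F.Q n z l l) p else gd p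

/-- The product over the small primes of the conditions `p ∣ G`. -/
noncomputable def V (n n' : ℕ) : ℝ := by
  classical
  exact W (fun p => (om (fun p y => (p : ℤ) ∣ (F.G n).eval y) p : ℝ) / p) (PK (2 * D) n')

/-- No prime `≤ z` divides `G`. -/
def Rg (n z : ℕ) (x : ℤ) : Prop := ∀ p : ℕ, p.Prime → p ≤ z → ¬ (p : ℤ) ∣ (F.G n).eval x

end Fam

/-- The last prime of the presieve. -/
def z0 (D n' : ℕ) : ℕ := 2 ^ (2 ^ (2 * D + n'))

end Pool.Agent.CM
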