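import Pool.Agent.Lib.MP_0da313_nt.CM.Defs
import Pool.Agent.Lib.MP_0da313_nt.MT.S2

set_option autoImplicit false

/-!
Project CM, section G: the expansion of a sieved quadratic sum over the integers `N = u y + v`, for a
general sequence `a N` and a combined sieve function `F` whose primes may overlap with the primes of the
weights.

`P` is the set of the primes of the weights, `PJf P` the corresponding type, `P1` the set of the primes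
of the sieve function. `y = (N - v)/u`. `dvI D y γ`: all the local conditions prescribed by `γ` hold.
`ZI D g y = ∑_α [dvI D y α] g α`. `sp γ` is the support of `γ` as a set of primes.
-/

namespace Pool.Agent.CM.G

open Finset
open Pool.Agent.MP89da58 (bil pw nn supp part join compat)
open Pool.Agent.BVall (om rhoW)
open Pool.Agent.MT (PJf LocD dvI ZI sp)
open Pool.Agent.CH.S (RepC)

open Classical in
/-- The common hypotheses. `Al l` says that the index `l` is allowed. -/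
structure GH {ι : Type} [Fintype ι] [DecidableEq ι] (P P1 : Finset ℕ) (D : PJf P → ι → ℤ → Prop)
    (Q : ℕ → ℤ → Prop) (Al : ι → Prop) (u v : ℤ) (K0 z : ℕ) : Prop where
  hu : u ≠ 0
  huv : IsCoprime u v
  hz : 2 ≤ z
  hP : ∀ p ∈ P, p.Prime ∧ z < p
  hPu : ∀ p ∈ P, ¬ p ∣ u.natAbs
  hP1 : ∀ p ∈ P1, p.Prime
  hD : LocD P D Al
  hcop : ∀ (j : PJf P) (l l' : ι) (y : ℤ), l ≠ l' → ¬ (D j l y ∧ D j l' y)
  hnd : ∀ (j : PJf P) (l : ι) (y : ℤ), Al l → D j l y → ¬ ((j : ℕ) : ℤ) ∣ u * y + v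
  hQ : ∀ (p : ℕ) (x y : ℤ), (p : ℤ) ∣ x - y → (Q p x ↔ Q p y)
  hQu : ∀ (p : ℕ) (x : ℤ), Q p x → ¬ (p : ℤ) ∣ u * x + v
  hex : ∀ (j : PJf P) (l : ι) (y : ℤ), Al l → D j l y → ¬ Q (j : ℕ) y
  hK : 1 ≤ K0
  hom : ∀ p : ℕ, p.Prime → om Q p ≤ K0

open Classical in
/-- One set of primes. -/
def R_cls : Prop := ∀ (u v : ℤ), u ≠ 0 → IsCoprime u v → ∀ Q : ℕ → ℤ → Prop,
  (∀ (p : ℕ) (x y : ℤ), (p : ℤ) ∣ x - y → (Q p x ↔ Q p y)) →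
  (∀ (p : ℕ) (x : ℤ), Q p x → ¬ (p : ℤ) ∣ u * x + v) →
  ∀ T : Finset ℕ, (∀ p ∈ T, p.Prime) → ∀ K : ℕ, (∀ p ∈ T, om Q p ≤ K) →
  ∀ (a : ℕ → ℝ) (N : ℕ) (E : ℝ),
  (∀ b : ℕ, b.Coprime (u.natAbs * ∏ p ∈ T, p) → er a N (u.natAbs * ∏ p ∈ T, p) b ≤ E) →
  |∑ n ∈ (Icc 1 N).filter (fun n : ℕ => u ∣ (n : ℤ) - v),
      a n * ∏ p ∈ T, (if Q p (((n : ℤ) - v) / u) then (1 : ℝ) else 0) -
    sT a N / (Nat.totient u.natAbs : ℝ) * ∏ p ∈ T, rhoW u.natAbs Q p| ≤ (K : ℝ) ^ T.card * E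

/-- [CM cls] Proof: this is `class_estimate` in `Lib/MP_0da313_nt/BV/Classes.lean` (with `sum_classes`,
`rr_coprime`, `totient_mul_prod`, `count_primes`) for a general sequence `a n` instead of
`Λ(n) OmL lam X n`; the proof is the same word for word (`psiAPL` becomes `sA`, `psiXL` becomes `sT`). -/
def S_cls : Prop := R_cls

/-- Changing the densities at a few primes. -/
def R_prt : Prop := ∀ (P1 : Finset ℕ) (q : Finset ℕ → Prop) (F : (ℕ → ℝ) → ℝ), RepC P1 q F →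
  ∀ (ρ ρ' : ℕ → ℝ) (X : Finset ℕ), (∀ p ∈ P1, 0 ≤ ρ' p ∧ ρ' p ≤ ρ p) →
  (∀ p ∈ P1, p ∉ X → ρ' p = ρ p) →
  |F ρ' - F ρ| ≤ 3 * (∑ p ∈ P1 ∩ X, ρ p) * ∏ p ∈ P1, (1 + ρ p)

/-- [CM prt] Proof: `|F ρ' - F ρ| ≤ 3 ∑_{T ⊆ P1} (∏_T ρ - ∏_T ρ')` (each difference is `≥ 0`)
`= 3 (∏_{P1} (1 + ρ) - ∏_{P1} (1 + ρ'))` (`Finset.prod_one_add` or `prod_add`). The difference of the products:
`∏_{P1 \ X} (1+ρ) * (∏_{P1 ∩ X} (1+ρ) - ∏_{P1 ∩ X} (1+ρ'))`, and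
`∏_Y (1+ρ) - ∏_Y (1+ρ') ≤ ∏_Y (1+ρ) - 1 ≤ (∑_Y ρ) ∏_Y (1+ρ)` by induction on `Y`
(`(1+ρ_p) ∏ - 1 = ρ_p ∏ + (∏ - 1)`, `∏ ≥ 1`). -/
def S_prt : Prop := R_prt

open Classical in
/-- The sum for one support. -/
def R_one : Prop := ∀ (ι : Type) [Fintype ι] [DecidableEq ι] (P P1 : Finset ℕ)
  (D : PJf P → ι → ℤ → Prop) (Q : ℕ → ℤ → Prop) (Al : ι → Prop) (u v : ℤ) (K0 z : ℕ),
  GH P P1 D Q Al u v K0 z → ∀ (Y0 : ℕ) (F : (ℕ → ℝ) → ℝ),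
  RepC P1 (fun T => ∏ p ∈ T, p ≤ Y0) F → ∀ (a : ℕ → ℝ) (N : ℕ) (E : ℕ → ℝ),
  (∀ q b : ℕ, 0 < q → b.Coprime (u.natAbs * q) → er a N (u.natAbs * q) b ≤ E q) →
  ∀ γ : PJf P → Option ι, (∀ j l, γ j = some l → Al l) →
  |∑ n ∈ (Icc 1 N).filter (fun n : ℕ => u ∣ (n : ℤ) - v),
      (if dvI D (((n : ℤ) - v) / u) γ then
        a n * F (fun p => if Q p (((n : ℤ) - v) / u) then (1 : ℝ) else 0) else 0) -
    sT a N / (Nat.totient u.natAbs : ℝ) * pw (fun j : PJf P => 1 / (((j : ℕ) : ℝ) - 1)) (supp γ) *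
      F (fun p => if p ∈ sp γ then 0 else rhoW u.natAbs Q p)| ≤
  ∑ T ∈ P1.powerset.filter (fun T => ∏ p ∈ T, p ≤ Y0 ∧ Disjoint T (sp γ)),
    3 * ((K0 : ℝ) ^ (T.card + (supp γ).card) *
      E ((∏ p ∈ T, p) * nn (fun j : PJf P => (j : ℕ)) (supp γ)))

/-- [CM one2] (uses cls) Proof: compare the proof of `S2_bound` in `MT/S2.lean`. Write
`F ρ = ∑_{T ⊆ P1} c T ∏_{p ∈ T} ρ p`, `|c T| ≤ 3`, and consider one `T` with `c T ≠ 0`. If `T` meets `sp γ`: for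
`p = j ∈ T ∩ sp γ`, `γ j = some l`, `Al l`: if `dvI D y γ` then `D j l y`, so `Q p y` is false (`hex`); hence the
left sum over `n` vanishes, and so does the product of the densities at `T`. If `T` is disjoint from
`sp γ`: apply `R_cls` to the set `T ∪ sp γ` and the condition
`Q' p y := (∃ h : p ∈ P, ∃ l, γ ⟨p, h⟩ = some l ∧ D ⟨p, h⟩ l y) ∨ (p ∉ sp γ ∧ Q p y)` (compare `Qc` in
`MT/Comb.lean`; there `p ∉ P` instead of `p ∉ sp γ`, and `prod_Qc`, `card_sp`, `prodn_sp`, `om_Qc_mem`, `Qc_per`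
have to be adapted), with `K = K0`: `om Q' p = 1` and `rhoW = 1/(p-1)` for `p ∈ sp γ` (`hD.one`, `hPu`), and
`om Q' p = om Q p` for `p ∈ T`; the classes are coprime to the modulus by `hQu`, `hnd`. The bound for `er` is
the hypothesis for `q = (∏ T) * nn (supp γ)`. Sum over `T`. -/
def S_one : Prop := R_cls → R_one

/-- Error sums, first kind. -/
def R_es1 : Prop := ∀ (P P1 : Finset ℕ), (∀ p ∈ P, p.Prime) → (∀ p ∈ P1, p.Prime) →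
  ∀ (c K0 Y Y0 : ℕ), 1 ≤ c → 1 ≤ K0 → ∀ E : ℕ → ℝ, (∀ q, 0 ≤ E q) →
  ∑ a ∈ (univ : Finset (Finset (PJf P))).filter (fun a => nn (fun j : PJf P => (j : ℕ)) a ≤ Y * Y),
    (c : ℝ) ^ a.card * ∑ T ∈ P1.powerset.filter (fun T => ∏ p ∈ T, p ≤ Y0 ∧
        Disjoint T (a.map (Function.Embedding.subtype _))),
      3 * ((K0 : ℝ) ^ (T.card + a.card) * E ((∏ p ∈ T, p) * nn (fun j : PJf P => (j : ℕ)) a)) ≤
  3 * ∑ q ∈ (Icc 1 (Y * Y * Y0)).filter Squarefree,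
    ((2 * c * K0 : ℕ) : ℝ) ^ q.primeFactors.card * E q

/-- [CM es1] Proof: compare `pair_sum_le` in `MT/S2.lean`. For a pair `(a, T)` put `A = a.map ..`, `q = ∏ T * nn a`
`= ∏_{p ∈ T ∪ A} p`, squarefree, `q ≤ Y Y Y0`, `q.primeFactors = T ∪ A` (disjoint union),
`c^|a| K0^(|T|+|a|) ≤ (c K0)^ω(q)`. For given `q` the pair is determined by the subset `A ⊆ q.primeFactors`, so
there are at most `2^ω(q)` pairs. (`Finset.sum_fiberwise_of_maps_to` or `card_le_card_of_injOn`.) -/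
def S_es1 : Prop := R_es1

/-- Error sums, second kind. -/
def R_es2 : Prop := ∀ (J : Type) [Fintype J] [DecidableEq J] (p : J → ℕ) (x : J → ℝ) (c k r : ℝ)
  (Y : ℕ), (∀ j, 2 ≤ p j) → (∀ j, 0 ≤ x j) → 0 ≤ c → 0 ≤ k → ((Y * Y : ℕ) : ℝ) ≤ 2 ^ r → 0 ≤ r →
  ∑ a ∈ (univ : Finset (Finset J)).filter (fun a => nn p a ≤ Y * Y),
    c ^ a.card * (pw x a * (k + a.card)) ≤ (k + r) * ∏ j, (1 + c * x j)

/-- [CM es2] Proof: `2^|a| ≤ nn p a ≤ Y Y ≤ 2^r`, so `|a| ≤ r`; `c^|a| pw x a = ∏_{j ∈ a} (c x j)`, and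
`∑_a ∏_{j ∈ a} (c x j) = ∏_j (1 + c x j)` (`Finset.prod_one_add`, `Finset.powerset_univ`). -/
def S_es2 : Prop := R_es2

open Classical in
/-- The general expansion. -/
def R_gen : Prop := ∀ (ι : Type) [Fintype ι] [DecidableEq ι] [Nonempty ι] (P P1 : Finset ℕ)
  (D : PJf P → ι → ℤ → Prop) (Q : ℕ → ℤ → Prop) (Al : ι → Prop) (u v : ℤ) (K0 z : ℕ),
  GH P P1 D Q Al u v K0 z → ∀ (Y0 : ℕ) (F : (ℕ → ℝ) → ℝ),
  RepC P1 (fun T => ∏ p ∈ T, p ≤ Y0) F →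
  ∀ (ρ : ℕ → ℝ) (X1 : Finset ℕ), (∀ p ∈ P1, 0 ≤ ρ p ∧ rhoW u.natAbs Q p ≤ ρ p) →
  (∀ p ∈ P1, p ∉ X1 → rhoW u.natAbs Q p = ρ p) → (∀ p ∈ X1, z < p) →
  (∀ p ∈ P1, z < p → ρ p ≤ 2 / z) →
  ∀ (a : ℕ → ℝ) (N : ℕ) (E : ℕ → ℝ), 0 ≤ sT a N →
  (∀ q b : ℕ, 0 < q → b.Coprime (u.natAbs * q) → er a N (u.natAbs * q) b ≤ E q) → (∀ q, 0 ≤ E q) →
  ∀ (g : (PJf P → Option ι) → ℝ) (B r : ℝ) (Y : ℕ), (∀ α, |g α| ≤ B) →
  (∀ α, g α ≠ 0 → nn (fun j : PJf P => (j : ℕ)) (supp α) ≤ Y) →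
  (∀ α, g α ≠ 0 → ∀ j l, α j = some l → Al l) → ((Y * Y : ℕ) : ℝ) ≤ 2 ^ r → 0 ≤ r →
  |∑ n ∈ (Icc 1 N).filter (fun n : ℕ => u ∣ (n : ℤ) - v),
      a n * F (fun p => if Q p (((n : ℤ) - v) / u) then (1 : ℝ) else 0) *
        ZI D g (((n : ℤ) - v) / u) ^ 2 -
    sT a N / (Nat.totient u.natAbs : ℝ) * F ρ *
      bil (fun j : PJf P => 1 / (((j : ℕ) : ℝ) - 1)) g g| ≤
  B ^ 2 * (3 * ∑ q ∈ (Icc 1 (Y * Y * Y0)).filter Squarefree,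
      ((6 * Fintype.card ι * K0 : ℕ) : ℝ) ^ q.primeFactors.card * E q +
    sT a N / (Nat.totient u.natAbs : ℝ) * (3 * (2 / z) * ∏ p ∈ P1, (1 + ρ p)) *
      ((X1.card + r) * ∏ j : PJf P, (1 + (3 * Fintype.card ι : ℝ) * (1 / (((j : ℕ) : ℝ) - 1)))))

/-- [CM gen] (uses one2, prt, es1, es2) Proof: as in `S2_bound`: `quad_expandI` (`MT/ExpandI.lean`) with
`M = sT a N/φ(u) * F ρ`, `ω n = a n * F (...)`, the error function `e γ = e' (supp γ)`,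
`e' A = (∑_T ...) + sT/φ * pw x' A * 3 (2/z) (X1.card + A.card) * ∏_{P1} (1 + ρ)`, where the first sum is the
right side of `R_one` (it only depends on the support: `sp γ` is `(supp γ).map ..`). For `γ = join α β`,
`g α ≠ 0`, `g β ≠ 0`, all indices of `γ` are allowed. By `R_one` the sum is close to
`sT/φ * pw x' (supp γ) * F ρ'`, `ρ' p = 0` for `p ∈ sp γ`, else `rhoW p`; and by `R_prt` with `X = X1 ∪ sp γ`
(all its elements are `> z`): `|F ρ' - F ρ| ≤ 3 (2/z) |X1 ∪ sp γ| ∏ (1 + ρ)`. (`rhoW ≥ 0`.) Then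
`err_sum_leI` (with `e'`) and `R_es1` (`c = 3 |ι|`), `R_es2` (`c = 3 |ι|`, `k = X1.card`). -/
def S_gen : Prop := R_one → R_prt → R_es1 → R_es2 → R_gen

end Pool.Agent.CM.G
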