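import Pool.Agent.Lib.MP_0da313_nt.CM.Defs
import Pool.Agent.Lib.MP_d610d0_nt.CH.P.Stm
import Pool.Agent.Lib.MP_d610d0_nt.CH.M2.Stm

set_option autoImplicit false

/-!
Project CM, section M: the masses of the windows. `wd lam X n = tri (lam * log (n / X))`,
`mu lam = 2 lam (cosh (1/lam) - 1)`. The statements `CH.P.R_PNT` and `CH.M2.S_mer` are proved in
`Lib/MP_d610d0_nt/CH/P/p_PNT.lean` (theorem `h_PNT` in `P/Main.lean`) and `CH/M2/mer.lean`.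
-/

namespace Pool.Agent.CM.M

open Finset Filter
open Pool.Agent.MP89da58 (tri)
open Pool.Agent.CH (thP)

/-- Bounds for `mu`. -/
def R_mu : Prop := ∀ lam : ℝ, 1 ≤ lam → 1 / lam ≤ mu lam ∧ mu lam ≤ 1 / lam * (1 + 1 / lam ^ 2)

/-- [CM mu] Proof: `x^2/2 ≤ cosh x - 1 ≤ (x^2/2)(1 + x^2)` for `0 ≤ x = 1/lam ≤ 1` (`Real.cosh`, e.g. from
`cosh x = 1 + 2 sinh(x/2)^2` and `y ≤ sinh y ≤ y (1 + y^2)` for `0 ≤ y ≤ 1/2`, or from bounds for `exp`). -/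
def S_mu : Prop := R_mu

/-- The mass of the primes. -/
def R_m1 : Prop := ∀ lam δ : ℝ, 1 ≤ lam → 0 < δ → ∀ᶠ X : ℝ in atTop,
  |∑ n ∈ Icc 1 ⌊3 * X⌋₊, thP n * wd lam X n - mu lam * X| ≤ δ * X

/-- [CM m1] (uses CH.P PNT) Proof: compare `CH/D/p_m1a.lean`. `g(t) = tri(lam log(t/X))` for `t > 0`.
`∫_0^∞ g = X ∫ tri(lam u) e^u du = X * 2 lam (cosh(1/lam) - 1) = mu lam * X`, and
`|∑_{n ≤ 3X} g(n) - ∫ g| ≤ 2` (total variation; the support lies in `(X/3, 3X)`). `∑ (Λ(n) - 1) g(n)`: Abel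
summation with `E(M) = ψ(M) - M`, `|E(M)| ≤ C M/log M` (R_PNT with `A = 1`) for `X/3 - 1 ≤ M ≤ 3X`, times the
variation `2`, so it is `≤ (δ/2) X` for large `X`. `∑ (Λ - thP)(n) ≤ C sqrt X log X` over `n ≤ 3X`
(Chebyshev functions in Mathlib, compare `CH/D/p_pp.lean`). -/
def S_m1 : Prop := CH.P.R_PNT → R_m1

/-- The number of primes in a window. -/
def R_mp : Prop := ∀ lam δ : ℝ, 1 ≤ lam → 0 < δ → ∀ᶠ Y : ℝ in atTop, ∀ N : ℕ,
  ∑ p ∈ Icc 1 N, (if p.Prime then wd lam Y p else 0) ≤ (1 + δ) * mu lam * Y / Real.log Y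

/-- [CM mp] (uses m1, mu) Proof: a prime `p` with `wd lam Y p ≠ 0` satisfies `Y/3 < p < 3Y`, so (enlarging
or cutting `N`, all terms are `≥ 0` and vanish for `p > 3Y`) the sum is at most
`∑_{p ≤ 3Y} thP p wd / log(Y/3) ≤ (mu lam * Y + δ' Y)/(log Y - log 3)` with `δ'` small with respect to
`δ mu lam` (`mu lam ≥ 1/lam > 0`), and `log Y - log 3 ≥ (1 - δ'') log Y` for large `Y`. -/
def S_mp : Prop := R_m1 → R_mu → R_mp

/-- The double sum over `p1`, `p2`. -/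
def R_gr : Prop := ∀ C : ℕ, 1 ≤ C → ∀ᶠ n : ℕ in atTop,
  ∑ p1 ∈ (Icc 1 n).filter (fun p => p.Prime ∧ kz n ≤ p ∧ p < ky C n),
    ∑ p2 ∈ (Icc 1 n).filter (fun q => q.Prime ∧ ky C n ≤ q ∧ p1 * q ^ 2 ≤ C * n),
      1 / ((p1 : ℝ) * p2) * (Real.log n / Real.log (n / ((p1 : ℝ) * p2))) ≤ 574 / 1000

/-- [CM gr] (uses CH.M2 mer) Proof (numerics; the value of the limit is
`∫_{1/11}^{1/3} log(2 - 3t)/(t (1-t)) dt = 0.5478`). Write `p1 = n^a`, `p2 = n^b`. `a ≥ 1/11`,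
`a ≤ 1/3 + η`, `b ≥ 1/3`, `a + 2b ≤ 1 + η` with `η = log C/log n + tiny → 0`. Cells: `a ∈ [a_i, a_(i+1))`,
`a_i = 1/11 + (8/33) i/40`, `0 ≤ i < 40` (the last one enlarged by `η`), `b ∈ [b_j, b_(j+1))`,
`b_j = 1/3 + (4/33) j/8`, `0 ≤ j < 8`. On a cell (which can be omitted if `b_j ≥ (1 - a_i)/2 + η`) the
factor `log n/log(n/(p1 p2)) = 1/(1 - a - b)` is at most `1/(1 - s_ij - η')`,
`s_ij = min(a_(i+1) + b_(j+1), (1 + a_(i+1))/2)`; the sum of `1/p1` is at most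
`log(a_(i+1)/a_i) + C'/log n` (`CH.M2.S_mer`, with `log b/log a` the ratio of the exponents), the sum of
`1/p2` at most `log(b'/b_j) + C'/log n`, `b' = min(b_(j+1), (1 - a_i)/2) + η`. With `log r ≤ (r - 1/r)/2` the
sum of the `180` products of the limits is `0.57263 < 0.574`; with `80` instead of `40` cells in `a` it is
`0.5647` (360 products), which leaves more room. (Pattern of such a numerical proof: `CH/M2/num.lean`,
`cell.lean`, `ptw.lean`.) The finite sum of rational numbers is evaluated by the kernel (`decide +kernel`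
on integers, after rounding up, or `norm_num`). -/
def S_gr : Prop := CH.M2.S_mer → R_gr

/-- The mass of the switched sequence. -/
def R_m3 : Prop := ∀ (C : ℕ) (lam t c : ℝ), 1 ≤ C → 1 ≤ lam → 0 < t → ∀ᶠ n : ℕ in atTop,
  ∑ m ∈ Icc 1 ⌊3 * (t * n + c)⌋₊, cv (al C n) m * wd lam (t * n + c) m
    ≤ 575 / 1000 * mu lam * (t * n + c) / Real.log n

/-- [CM m3] (uses mp, gr) Proof: `X = t n + c`. `cv (al C n) m = ∑_{k ∣ m} al C n k [m/k prime]`, so the sum is at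
most `∑_k al C n k ∑_{p prime} wd lam (X/k) p` (`wd lam X (k p) = wd lam (X/k) p`). If `al C n k ≠ 0` then
`k = p1 p2` with `p1 < ky C n ≤ p2`, and `(p1, p2)` is unique; `k^2 = p1 (p1 p2^2) ≤ ky C n * C n`, so
`k ≤ n^(0.7)` and `X/k ≥ n^(0.2)` for large `n`: `R_mp` with `δ` small gives `≤ (1+δ) mu lam (X/k)/log(X/k)`,
and `log(X/k) = log(n/k) + log(X/n) ≥ (1-δ) log(n/k)` for large `n`. Then `R_gr`
(`p1, p2 ≤ n` for large `n`), `574/1000 * (1+δ)/(1-δ) ≤ 575/1000`. -/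
def S_m3 : Prop := R_mp → R_gr → R_m3

end Pool.Agent.CM.M
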