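import Pool.Agent.Lib.MP_0da313_nt.CM.B
import Pool.Agent.Lib.MP_0da313_nt.CM.M
import Pool.Agent.Lib.MP_0da313_nt.MT.LinM

set_option autoImplicit false

/-!
Project CM, section L: the families of linear forms, their windows and masses.
-/

namespace Pool.Agent.CM.L

open Finset Filter Polynomial
open Pool.Agent.CH (thP)
open Pool.Agent.Lib.MP_0da313_nt (Admissible lineRestrict val W)
open Pool.Agent.BVall (om rhoW PK Dens)
open Pool.Agent.MP89da58 (kapD)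

/-- The index of a form. -/
def ix {m : ℕ} {I : Finset (Fin m)} (k0 : Fin m) : Option {k // k ∈ I} → Fin m
  | none => k0
  | some i => i

/-- Existence of the family data. -/
def R_fam : Prop := ∀ (m d : ℕ), 1 ≤ m → 1 ≤ d → ∀ f : Fin m → MvPolynomial (Fin 2) ℤ,
  Admissible f → (∀ k, (f k).totalDegree ≤ d) → ∀ (k0 : Fin m) (I : Finset (Fin m)), k0 ∉ I →
  (∀ k ∈ insert k0 I, (f k).totalDegree ≤ 1) →
  (∀ k ∈ insert k0 I, ∀ l ∈ insert k0 I, k ≠ l → f k ≠ f l ∧ f k ≠ - f l) →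
  ∃ F : Fam {k // k ∈ I} (m * d), F.hw = 1 / (4000 * ((m : ℝ) + 2)) ∧
    (∀ n, F.N0 ≤ n → F.G n = ∏ k, lineRestrict (f k) n) ∧
    (∀ n, F.N0 ≤ n → ∀ k, Irreducible (lineRestrict (f k) n)) ∧
    ∀ n : ℕ, F.N0 ≤ n → ∀ (l : Option {k // k ∈ I}) (x : ℤ),
      (F.L n l x).natAbs = (val (f (ix k0 l)) x ((n : ℤ) - x)).natAbs

/-- [CM fam] Proof: `exists_lin` (`MT/LinM.lean`) gives `Lin (f k)` for the members `k = ix k0 l`:
`val (f k) x y = a x + b x + c`, `a ≠ b`. The form `val (f k) x (n - x) = (a - b) x + (b n + c)`. Let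
`ζ_l = -b/(a-b)`. There is `ξ ∈ [1/4, 3/4]` with `|ξ - ζ_l| ≥ 1/(4 (m+2))` for all `l`: the `m + 2` points
`1/4 + j/(2 (m+1))`, `0 ≤ j ≤ m + 1`, have mutual distances `≥ 1/(2(m+1))`, so each of the at most `m` numbers
`ζ_l` has distance `< 1/(4(m+1))` from at most one of them (`|I| + 1 ≤ m` as `k0 ∉ I`). `hw = 1/(4000 (m+2))`;
`4 hw ≤ 1/4`. Sign `σ_l = ±1` such that `σ_l ((a-b) ξ + b) > 0`; then `u l = σ (a-b)`, `b l = σ b`, `c l = σ c`, and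
`u ξ + b = |u| |ξ - ζ| ≥ |u| 1000 hw`. `G n = ∏ k, lineRestrict (f k) n`,
`Gc n l = C σ * ∏ k ∈ univ.erase (ix k0 l), lineRestrict (f k) n` (`lineRestrict (f k) n = C (a-b) * X + C (b n + c)`:
`line_eq`). `hdeg`: `natDegree_prod_le`, `natDegree_lineRestrict_le` (see `MT/Core.lean`). `hloc`, irreducibility:
`Admissible` (and `eval_prod`). `huv`: `Lin.coprime` (sign changes are harmless), `hdet`: `det_ne` (`MT/Det.lean`,
for the `Lin` data; the determinant changes by the sign `± 1` only). `N0` is the maximum of the finitely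
many thresholds. The last claim: `L n l x = σ * val ..`. -/
def S_fam : Prop := R_fam

/-- The prime factors of the weights. -/
def R_P : Prop := ∀ (ι : Type) [Fintype ι] [DecidableEq ι] (D : ℕ) (F : Fam ι D) (B0 : ℕ), 1 ≤ B0 →
  ∀ᶠ n : ℕ in atTop, ∀ z R : ℕ, n ≤ z ^ B0 →
  (∀ l (p : ℕ), p.Prime → z < p → ¬ p ∣ (F.u l).natAbs) ∧
  (∀ l l', l ≠ l' → ∀ s : Finset ℕ, (∀ p ∈ s, p.Prime ∧ z < p ∧
    (p : ℤ) ∣ F.u l * F.v n l' - F.u l' * F.v n l) → s.card ≤ B0 + 1) ∧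
  ∃ P Ex : Finset ℕ, (∀ p ∈ P, p.Prime ∧ z < p ∧ p ≤ R) ∧
    (∀ p ∈ P, ∀ l l', l ≠ l' → ¬ (p : ℤ) ∣ F.u l * F.v n l' - F.u l' * F.v n l) ∧
    (∀ p : ℕ, p.Prime → z < p → p ≤ R → p ∈ P ∨ p ∈ Ex) ∧ ∑ p ∈ Ex, 1 / (p : ℝ) ≤ 1 / 2

/-- [CM P] Proof: compare `exists_P` in `MT/Det.lean`. `z ≥ n^(1/B0)` is larger than all `|u l|` for large
`n`. The determinants are nonzero (`F.hdet`; `F.v n l = b l * n + c l`) and at most `C n ≤ z^(B0+1)`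
(`z ≥ C`): `card_large_le` (`MT/Det.lean`). `P` = the primes in `(z, R]` not dividing any of the determinants,
`Ex` = the other primes in `(z, R]`; `|Ex| ≤ (|ι|+1)^2 (B0+1)`, so `∑ 1/p ≤ |Ex|/z ≤ 1/2` for large `n`. -/
def S_P : Prop := R_P

/-- Location of the windows. -/
def R_win : Prop := ∀ (ι : Type) [Fintype ι] [DecidableEq ι] (D : ℕ) (F : Fam ι D),
  (∀ l, 0 < F.t l ∧ 100 ≤ F.la l) ∧ ∀ᶠ n : ℕ in atTop,
  (∀ l, 1 ≤ F.X n l) ∧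
  (∀ (l : Option ι) (x : ℤ), 0 < F.L n l x → F.wi n l (F.L n l x).toNat ≠ 0 →
    0 < x ∧ x < n ∧ ∀ l', F.X n l' / 3 ≤ F.L n l' x ∧ (F.L n l' x : ℝ) ≤ 3 * F.X n l') ∧
  ∀ (i : ι) (x : ℤ), 0 < F.L n none x → F.wi n none (F.L n none x).toNat ≠ 0 →
    F.wi n none (F.L n none x).toNat ≤ F.wi n (some i) (F.L n (some i) x).toNat

/-- [CM win] Proof: `t l = u l * xi + b l ≥ 1000 |u l| hw > 0`, `la l ≥ 0.99 * 1000`. Let `x* = xi n`; `X n l = L n l (x*)`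
(real argument), so `L n l x = X n l + u l (x - x*)`. Let `ρ_l = u l/X n l`; for large `n`,
`|ρ_l| = |u l|/(t l n + c l) ≤ 1.001 |u l|/(t l n) ≤ 1.001/(1000 hw n)`, and `la l = κ_l t l/(|u l| hw)`,
`κ_l ∈ {1, 0.99}`, so `la l * |ρ_l| ∈ [0.98/(hw n), 1.001/(hw n)]`. If `wi ≠ 0` for the form `l`:
`la l |log(1 + ρ_l (x - x*))| < 1`, so `|ρ_l (x-x*)| ≤ 1.01/la l` (as `1/la l ≤ 1/100`, `|log(1+s)| ≥ |s|/1.01` for
`|s| ≤ ...`, or `|s| ≤ e^(1/la) - 1`), hence `|x - x*| ≤ 1.01/(la l |ρ_l|) ≤ 1.05 hw n`. As `4 hw ≤ xi ≤ 1 - 4 hw`: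
`0 < x < n`. For all `l'`: `|ρ_l' (x - x*)| ≤ 1.06/1000`, so `L n l' x ∈ [X/3, 3X]`. Comparison: let
`s = ρ_0 (x - x*)`, `s' = ρ_i (x - x*)`, both of absolute value `≤ 1.06/1000`; for `|s| ≤ 1/500`,
`|s| (1 - |s|) ≤ |log(1+s)| ≤ |s| (1 + |s|)`. So `la_i |log(1+s')| ≤ la_i |ρ_i| |x-x*| (1.002)`
`≤ 0.99 * 1.001 * 1.002 |x-x*|/(hw n)` and `la_0 |log(1+s)| ≥ (0.9999) 0.998 |x - x*|/(hw n)` for large `n`
(`la_0 |ρ_0| hw n → 1`, `la_i |ρ_i| hw n → 0.99`): the first is `≤` the second, and `tri` is decreasing in the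
absolute value. -/
def S_win : Prop := R_win

/-- The masses of the windows. -/
def R_mass : Prop := ∀ (ι : Type) [Fintype ι] [DecidableEq ι] (D : ℕ) (F : Fam ι D) (C : ℕ), 1 ≤ C →
  ∀ᶠ n : ℕ in atTop,
  998 / 1000 * (F.hw * n * |(F.u none : ℝ)|) ≤ sT (F.a0 n) (F.NX n none) ∧
  sT (F.a0 n) (F.NX n none) ≤ 1002 / 1000 * (F.hw * n * |(F.u none : ℝ)|) ∧
  ∀ i : ι, 0 ≤ sT (F.a3 C n i) (F.NX n (some i)) ∧ sT (F.a3 C n i) (F.NX n (some i)) ≤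
    583 / 1000 * (F.hw * n * |(F.u (some i) : ℝ)|) / Real.log n

/-- [CM mass] (uses M mu, m1, m3, win) Proof: `X = F.X n l = t n + c → ∞`, `la = F.la l ≥ 990`.
`mu la * X ≥ X/la` and `≤ (X/la)(1 + 1/la^2)`; for `l = none`: `X/la = (t n + c) |u| hw/t`, which is
`hw n |u| (1 + o(1))`; `R_m1` with `δ = mu la/10000`. For `some i`: `X/la = (1/0.99) hw n |u| (1+o(1))` and
`R_m3`: `0.575 * 1.0102 * 1.00001 ≤ 0.583`. (`F.a0 n N = thP N * wd la X N`, `F.NX n l = ⌊3X⌋₊`.) -/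
def S_mass : Prop := M.R_mu → M.R_m1 → M.R_m3 → R_win → R_mass

/-- The Bombieri-Vinogradov theorem for the sequences of the family. -/
def R_bvF : Prop := ∀ (ι : Type) [Fintype ι] [DecidableEq ι] (D : ℕ) (F : Fam ι D) (C b A : ℕ),
  1 ≤ C → ∀ᶠ n : ℕ in atTop, ∀ a : ℕ → ℕ,
  ((∀ q, (a q).Coprime ((F.u none).natAbs * q)) →
    ∑ q ∈ (Icc 1 ⌊(n : ℝ) ^ (4995 / 10000 : ℝ)⌋₊).filter Squarefree, (b : ℝ) ^ q.primeFactors.card *
      er (F.a0 n) (F.NX n none) ((F.u none).natAbs * q) (a q) ≤ n / (Real.log n) ^ A) ∧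
  ∀ i : ι, (∀ q, (a q).Coprime ((F.u (some i)).natAbs * q)) →
    ∑ q ∈ (Icc 1 ⌊(n : ℝ) ^ (4995 / 10000 : ℝ)⌋₊).filter Squarefree, (b : ℝ) ^ q.primeFactors.card *
      er (F.a3 C n i) (F.NX n (some i)) ((F.u (some i)).natAbs * q) (a q) ≤ n / (Real.log n) ^ A

/-- [CM bvF] (uses B, win) Proof: `X = F.X n l`; `X ≤ C' n` and `X ≥ n/C'` for large `n`, so
`n^(4995/10000) ≤ X^(1/2 - 1/10000)` for large `n`; `R_B` with `lam = F.la l ≥ 1`, `W = |u l|`, `A + 1`,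
`ε = 1/10000`: `≤ X/(log X)^(A+1) ≤ n/(log n)^A`. `F.a0 n` and `F.a3 C n i` are the sequences
`f n * wd lam X n` of the classes `CP`, `CA`: `Alp X (al C n)`: if `al C n k ≠ 0` then `k = p1 p2`,
`p1, p2 ≥ kz n ≥ n^(1/11) ≥ X^(1/20)`, `k ≥ kz n * ky C n ≥ n^(0.42) ≥ X^(1/4)`, and
`k^2 = p1 (p1 p2^2) ≤ ky C n * C n ≤ X^(3/2)`. (The sum over fewer `q` is smaller, `er ≥ 0`.) -/
def S_bvF : Prop := B.R_B → R_win → R_bvF

open Classical in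
/-- The densities. -/
def R_dns : Prop := ∀ (ι : Type) [Fintype ι] [DecidableEq ι] (D : ℕ) (F : Fam ι D), 1 ≤ D →
  ∀ (n n' : ℕ), F.N0 ≤ n → (∀ l (p : ℕ), p.Prime → z0 D n' < p → ¬ p ∣ (F.u l).natAbs) →
  (∀ l l' (p : ℕ), p.Prime → om (F.Q n (z0 D n') l l') p ≤ D) ∧
  (∀ l l' (p : ℕ), p.Prime → p ≤ z0 D n' →
    rhoW (F.u l).natAbs (F.Q n (z0 D n') l l') p = F.rd n (z0 D n') l p) ∧
  (∀ l l' (p : ℕ), l ≠ l' → p.Prime → z0 D n' < p →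
    rhoW (F.u l).natAbs (F.Q n (z0 D n') l l') p =
      if (p : ℤ) ∣ F.u l * F.v n l' - F.u l' * F.v n l then 0 else 1 / ((p : ℝ) - 1)) ∧
  (∀ l, Dens (2 * D) (fun p => if p.Prime ∧ p ≤ z0 D n' then F.rd n (z0 D n') l p else 0)) ∧
  (∀ l, W (F.rd n (z0 D n') l) (PK (2 * D) n') / (Nat.totient (F.u l).natAbs : ℝ) =
    F.V n n' / (kapD (z0 D n') * |(F.u l : ℝ)|)) ∧ 0 ≤ F.V n n'

/-- [CM dns] Proof: `z = z0 D n'`, `PK (2D) n'` = the primes `≤ z` (`mem_PK`). For `p ≤ z`: `F.Q n z l l' p y` says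
`p ∣ Gc(y)` and `p ∤ L_l(y)`, independent of `l'`; the number of classes is at most the number of roots of
`G n = (u X + v) Gc` modulo `p`, which is at most `D` (`card_roots_mod_le`; `hloc`: `G` does not vanish
identically modulo `p`), in fact by `om_prod` (`MT/Orient.lean`, with `σ = 1`, `g = C u * X + C v`) it is
`om(G) - [p ∤ u]`. For `p > z`: `p ∣ L_l'(y)`, `p ∤ L_l(y)`: `p ∤ u l'`, so there is exactly one class `y` with
`p ∣ L_l'(y)`, and `p ∣ L_l(y)` there iff `p ∣ u l * v l' - u l' * v l`; also `p ∤ u l`, so `rhoW` has the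
denominator `p - 1`; `D ≥ 1`. `Dens (2D)`: as in `Cls.dens` (`BV/Rough.lean`): `cls_family` gives `Cls` for the
condition at all primes, `F.rd` for `p ≤ z` is its `rhoW`. The product: `W_relation` (`MT/Orient.lean`) with
equality instead of `≤`, since all prime factors of `u l` are `≤ z`: factor by factor
`(1 - om(G)/p) r_p = (1 - rhoW p)(1 - 1/p)`, `r_p = 1 - 1/p` if `p ∣ u`, else `1`, and
`∏_{p ≤ z} r_p = φ(|u|)/|u|` (`totient_div`), `kapD z = ∏_{p ≤ z} (1 - 1/p)`. `F.V n n' ≥ 0`: `om(G) ≤ p`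
(`card_roots_mod_lt`). -/
def S_dns : Prop := R_dns

end Pool.Agent.CM.L
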