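import Pool.Agent.Lib.MP_0da313_nt.CM.S
import Pool.Agent.Lib.MP_0da313_nt.MT.MkG
import Pool.Agent.Lib.MP_0da313_nt.MT.OneDimU

set_option autoImplicit false

/-!
Project CM, section W: the weights of Maynard type.
-/

namespace Pool.Agent.CM.W

open Finset Filter
open Pool.Agent.MP89da58 (bil pw nn supp part)
open Pool.Agent.MT (PJf ZI)
open Pool.Agent.CH.S (V)

/-- The weights attached to the set `P` of primes. `lami i` are the weights without the index `i`. -/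
structure WPk {ι : Type} [Fintype ι] [DecidableEq ι] (P : Finset ℕ) (Y : ℕ) (B A V1 τ : ℝ)
    (lam : (PJf P → Option ι) → ℝ) (lami : ι → (PJf P → Option ι) → ℝ) : Prop where
  bd : ∀ α, |lam α| ≤ B
  bdi : ∀ i α, |lami i α| ≤ B
  sup : ∀ α, lam α ≠ 0 → nn (fun j : PJf P => (j : ℕ)) (supp α) ≤ Y
  supi : ∀ i α, lami i α ≠ 0 → part α i = ∅ ∧ nn (fun j : PJf P => (j : ℕ)) (supp α) ≤ Y
  link : ∀ (i : ι) (D : PJf P → ι → ℤ → Prop) (y : ℤ), (∀ j, ¬ D j i y) →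
    ZI D lam y = ZI D (lami i) y
  one : 1 ≤ A
  up : bil (fun j : PJf P => 1 / (((j : ℕ) : ℝ) - 1)) lam lam ≤ 2 * A
  lo : ∀ i, τ * A ≤ V1 * bil (fun j : PJf P => 1 / (((j : ℕ) : ℝ) - 1)) (lami i) (lami i)

/-- Euler products. -/
def R_pr : Prop := ∀ k : ℕ, ∃ C : ℝ, 0 < C ∧ ∀ n : ℕ, 3 ≤ n →
  ∏ p ∈ (Icc 1 n).filter Nat.Prime, (1 + (k : ℝ) / ((p : ℝ) - 1)) ≤ C * (Real.log n) ^ k

/-- [CM pr] (uses CH.P mer2) Proof: `1 + x ≤ exp x`; `∑_{p ≤ n} 1/(p-1) ≤ ∑_{p ≤ n} 1/p + ∑ 1/(p(p-1))`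
`≤ log log n + C'` by `CH.P.R_mer2` with `a = 2` (`log log n` may be negative for small `n`: enlarge `C`). -/
def S_pr : Prop := CH.P.R_mer2 → R_pr

/-- Replacing `1/p` by `1/(p-1)` in the quadratic form. -/
def R_bp : Prop := ∀ (ι : Type) [Fintype ι] [DecidableEq ι] (P : Finset ℕ) (z : ℕ), 2 ≤ z →
  (∀ p ∈ P, z < p) → ∀ (lam : (PJf P → Option ι) → ℝ) (B r : ℝ) (Y : ℕ), (∀ α, |lam α| ≤ B) →
  (∀ α, lam α ≠ 0 → nn (fun j : PJf P => (j : ℕ)) (supp α) ≤ Y) → ((Y * Y : ℕ) : ℝ) ≤ 2 ^ r → 0 ≤ r →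
  |bil (fun j : PJf P => 1 / (((j : ℕ) : ℝ) - 1)) lam lam -
      bil (fun j : PJf P => 1 / ((j : ℕ) : ℝ)) lam lam| ≤
    B ^ 2 * ((2 / z) * r * ∏ j : PJf P, (1 + (3 * Fintype.card ι : ℝ) * (1 / (((j : ℕ) : ℝ) - 1))))

/-- [CM bp] Proof: `bil x f f = ∑_{α, β} f α f β ∏_j kap (x j) (α j) (β j)`, the product is
`pw x (supp (join α β))` for compatible `α, β` and `0` otherwise (`prod_kap_compat`,
`prod_kap_not_compat`, used in `MT/ExpandI.lean`). For `A = supp (join α β)`: `nn A ≤ Y Y`, so `|A| ≤ r`, and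
`0 ≤ pw x' A - pw x A ≤ pw x' A * (1 - ∏_{j ∈ A} (1 - 1/j)) ≤ pw x' A * |A| * (1/z)` (`x j/x' j = 1 - 1/j`). Then
`err_sum_leI` (`MT/ExpandI.lean`) with `E A = pw x' A * |A|/z` restricted to `nn A ≤ Y Y`, and
`∑_A (3|ι|)^|A| pw x' A = ∏_j (1 + 3|ι| x' j)`. -/
def S_bp : Prop := R_bp

/-- The level of the weights. -/
noncomputable def yM (M n : ℕ) : ℕ := ⌊(n : ℝ) ^ (1 / (1000 * M) : ℝ)⌋₊ ^ M

/-- Existence of the weights. -/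
def R_wp : Prop := ∃ c : ℝ, 0 < c ∧ c ≤ 1 ∧ ∀ (ι : Type) [Fintype ι] [DecidableEq ι] [Nonempty ι],
  ∃ M : ℕ, 1 ≤ M ∧ ∀ B0 : ℕ, 1 ≤ B0 → ∀ᶠ n : ℕ in atTop, ∀ z : ℕ, n ≤ z ^ B0 →
  (z : ℝ) ^ M ≤ (n : ℝ) ^ (1 / 1000 : ℝ) → ∀ P Ex : Finset ℕ,
  (∀ p ∈ P, p.Prime ∧ z < p ∧ p ≤ yM M n) →
  (∀ p : ℕ, p.Prime → z < p → p ≤ yM M n → p ∈ P ∨ p ∈ Ex) →
  ∑ p ∈ Ex, 1 / (p : ℝ) ≤ 1 / 2 →
  ∃ (lam : (PJf P → Option ι) → ℝ) (lami : ι → (PJf P → Option ι) → ℝ) (A τ : ℝ),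
    WPk P (yM M n) ((B0 : ℝ) ^ Fintype.card ι) A (V (z + 1) (kz n)) τ lam lami ∧
    c / (Fintype.card ι * B0) ≤ τ ∧ c * Real.log (Fintype.card ι) ≤ Fintype.card ι * τ

/-- [CM wp] (uses S v1, pr, bp) Proof: `K = |ι| ≥ 1`.
Case `K = 1`: `M = 1`, `lam α = 1` if `α = fun _ => none`, else `0`; `lami i = lam`; `A = 1`, `τ = 1/B0`. Then
`ZI D lam y = 1` for all `D, y`, `bil = 1`, `|lam| ≤ 1 ≤ B0`, `nn ∅ = 1 ≤ yM` (for large `n`), and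
`V1 ≥ 10 log z/log n ≥ 10/B0 ≥ τ` (`R_v1`; `log n ≤ B0 log z`); `log K = 0`.
Case `K ≥ 2`: `m' = Nat.log 2 K ≥ 1`, `M = 64 * 1000 * K * (m' + 1)`, `y = ⌊n^(1/(1000M))⌋₊`, `κ = kapD z`; copy from
`MT/MainN2.lean` (proof of `main_n`) the construction of `S` by `exists_sdataG` (with `z ≤ y`, as
`z ≤ n^(1/(1000 M))` by hypothesis, `g0_lower`, `g0_upper`), the facts `κ log z ≤ 1` (`kapD_mul_log_le`),
`κ log n ≤ B0`, `G0 ≤ B0`, `|lam| ≤ G0^K ≤ B0^K` (`abs_lam_le`, `abs_lami_le`), the supports (`lam_support`,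
`lami_support`), `link` from `ZI_lami` (`MT/Zb.lean`). `A = S.A2^K ≥ 1`. `up`: `bil_lam_le` and `R_bp` (with
`r = 2 log n`; `∏_j (1 + 3K/(j-1)) ≤ C (log n)^(3K)` by `R_pr`, `2/z ≤ 2 n^(-1/B0)`): the difference is `≤ 1 ≤ A`
for large `n`. `lo`: `bil_lami_ge` gives `bil ≥ A1^2 A2^(K-1)/4`, and `A1 ≥ m' κ log y/8`, `A2 ≤ 2000 κ log y`,
`log n ≤ 2000 M log y`, `M ≤ 128000 K m'` give `A1^2/A2 ≥ c1 (m'/K) κ log n` with an absolute constant `c1 > 0`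
(as `hmainT` in `main_n`); `V1 log n ≥ 10 log z` (`R_v1`) and `1 ≤ 1000 κ log z` (`mertens`, `MT/Mertens.lean`),
so `V1 κ log n ≥ 1/100` and `V1 bil ≥ (c1/400)(m'/K) A`. `τ = (c1/400) m'/K`, and `c log K ≤ (c1/400) m'`
because `log K ≤ 2 m'` (`log_le_del` in `MT/Core.lean`). -/
def S_wp : Prop := S.R_v1 → R_pr → R_bp → R_wp

end Pool.Agent.CM.W
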