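import Pool.Agent.Lib.MP_0da313_nt.CM.S
import Pool.Agent.Lib.MP_0da313_nt.CM.G
import Pool.Agent.Lib.MP_0da313_nt.CM.W
import Pool.Agent.Lib.MP_0da313_nt.CM.L

set_option autoImplicit false

/-!
Project CM, section F: the sums over `x` and the final theorem.

Notation for the docstrings: `z = z0 D n'`, `κ = kapD z`, `V = F.V n n'`, `Φ = F.hw * n * V / κ`,
`V1 = V (z + 1) (kz n)`, `x' j = 1/(j-1)`, `b = bil x' g g ≥ 0`.
-/

namespace Pool.Agent.CM.F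

open Finset Filter Polynomial
open ArithmeticFunction (cardFactors)
open Pool.Agent.MP89da58 (bil pw nn supp part kapD)
open Pool.Agent.MT (PJf ZI Dl)
open Pool.Agent.BVall (om rhoW PK lev RepB Dens)
open Pool.Agent.Lib.MP_0da313_nt (Admissible lineRestrict val singV W)
open Pool.Agent.CH (thP)
open Pool.Agent.CH.S (th Pr gd RepC V)
open Pool.Agent.CM.W (WPk yM)

/-- The local conditions of the weights. -/
def DF {ι : Type} [Fintype ι] [DecidableEq ι] {D : ℕ} (F : Fam ι D) (n : ℕ) (P : Finset ℕ) :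
    PJf P → ι → ℤ → Prop := Dl P (fun i => F.u (some i)) (fun i => F.v n (some i))

/-- The quadratic form with `x' j = 1/(j-1)`. -/
noncomputable def qf {ι : Type} [Fintype ι] [DecidableEq ι] {P : Finset ℕ}
    (g : (PJf P → Option ι) → ℝ) : ℝ := bil (fun j : PJf P => 1 / (((j : ℕ) : ℝ) - 1)) g g

/-- The parameters at `n`. -/
structure Par {ι : Type} [Fintype ι] [DecidableEq ι] {D : ℕ} (F : Fam ι D) (B0 M n n' : ℕ)
    (P : Finset ℕ) : Prop where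
  hzB : n ≤ z0 D n' ^ B0
  hlev : (lev (2 * D) n' : ℝ) ^ 3 ≤ (n : ℝ) ^ (1 / 1000 : ℝ)
  hP : ∀ p ∈ P, p.Prime ∧ z0 D n' < p ∧ p ≤ yM M n
  hdet : ∀ p ∈ P, ∀ l l', l ≠ l' → ¬ (p : ℤ) ∣ F.u l * F.v n l' - F.u l' * F.v n l

/-- The presieve functions. -/
structure Pre (D n' : ℕ) (Fp Fm : (ℕ → ℝ) → ℝ) : Prop where
  rp : RepB (PK (2 * D) n') (fun T => ∏ p ∈ T, p ≤ lev (2 * D) n' ^ 3) Fp
  rm : RepB (PK (2 * D) n') (fun T => ∏ p ∈ T, p ≤ lev (2 * D) n' ^ 3) Fm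
  pt : ∀ ρ : ℕ → ℝ, (∀ p ∈ PK (2 * D) n', 0 ≤ ρ p ∧ ρ p ≤ 1) →
    Fm ρ ≤ W ρ (PK (2 * D) n') ∧ W ρ (PK (2 * D) n') ≤ Fp ρ
  mt : ∀ ρ : ℕ → ℝ, Dens (2 * D) ρ → Fp ρ ≤ (1 + 1 / 1000) * W ρ (PK (2 * D) n') ∧
    (1 - 1 / 1000) * W ρ (PK (2 * D) n') ≤ Fm ρ

/-- Weights `g` without the indices `l`, `l'`. -/
structure Wts {ι : Type} [Fintype ι] [DecidableEq ι] {P : Finset ℕ} (B Y : ℕ) (l l' : Option ι)
    (g : (PJf P → Option ι) → ℝ) : Prop where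
  bd : ∀ α, |g α| ≤ B
  sup : ∀ α, g α ≠ 0 → nn (fun j : PJf P => (j : ℕ)) (supp α) ≤ Y
  ne : ∀ α, g α ≠ 0 → ∀ j i, α j = some i → some i ≠ l ∧ some i ≠ l'

/-! ### Application of the general expansion -/

/-- The general expansion for a family. -/
def R_app : Prop := ∀ (ι : Type) [Fintype ι] [DecidableEq ι] [Nonempty ι] (D : ℕ) (F : Fam ι D)
  (B0 M B A : ℕ), 1 ≤ D → 1 ≤ B0 → 1 ≤ M → ∃ b A' : ℕ, ∀ᶠ n : ℕ in atTop, ∀ (n' : ℕ)
  (P : Finset ℕ), Par F B0 M n n' P → ∀ (l l' : Option ι) (y : ℕ) (Ff : (ℕ → ℝ) → ℝ),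
  (l ≠ l' ∨ y ≤ z0 D n' + 1) → y ≤ n →
  RepC (PK (2 * D) n' ∪ Pr (z0 D n' + 1) y)
    (fun T => ∏ p ∈ T, (p : ℝ) ≤ (n : ℝ) ^ (4974 / 10000 : ℝ)) Ff →
  ∀ (a : ℕ → ℝ) (N : ℕ), 0 ≤ sT a N → sT a N ≤ n * Real.log n →
  (∀ c : ℕ → ℕ, (∀ q, (c q).Coprime ((F.u l).natAbs * q)) →
    ∑ q ∈ (Icc 1 ⌊(n : ℝ) ^ (4995 / 10000 : ℝ)⌋₊).filter Squarefree, (b : ℝ) ^ q.primeFactors.card *
      er a N ((F.u l).natAbs * q) (c q) ≤ n / (Real.log n) ^ A') →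
  ∀ g : (PJf P → Option ι) → ℝ, Wts B (yM M n) l l' g →
  |∑ k ∈ (Icc 1 N).filter (fun k : ℕ => F.u l ∣ (k : ℤ) - F.v n l),
      a k * Ff (F.ri n (z0 D n') l l' (((k : ℤ) - F.v n l) / F.u l)) *
        ZI (DF F n P) g (((k : ℤ) - F.v n l) / F.u l) ^ 2 -
    sT a N / (Nat.totient (F.u l).natAbs : ℝ) * Ff (F.rd n (z0 D n') l) * qf g| ≤
  n / (Real.log n) ^ A

/-- [CM app] (uses G gen, L dns, L P, W pr) Proof: `R_gen` with `P1 = PK (2D) n' ∪ Pr (z+1) y`,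
`D = DF F n P` (`Dl_loc`, `Dl_cop` in `MT/Zb.lean`), `Q = F.Q n z l l'`, `Al i = (some i ≠ l ∧ some i ≠ l')`,
`u = F.u l`, `v = F.v n l`, `K0 = D`, `Y0 = ⌊n^(4974/10000)⌋₊`, `ρ = F.rd n z l`, `X1` = the primes of
`Pr (z+1) y` dividing the determinant of `l, l'` if `l ≠ l'` (at most `B0 + 1` of them, second part of
`L.R_P`; the first part: no prime `> z` divides any `u l`), `X1 = ∅` otherwise (then `P1 = PK (2D) n'`),
`Y = yM M n ≤ n^(1/1000)`, `r = 2 log n`, `g`. Hypotheses: `hnd`: if a prime `p ∈ P` divides `L_i(y)` and `L_l(y)`,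
`some i ≠ l`, then it divides the determinant; `hex`: for `p ∈ P`, `p > z`, `F.Q .. p y` says `p ∣ L_l'(y)` and
`p ∤ L_l(y)`; if also `p ∣ L_i(y)`, `some i ≠ l'`, then `p` divides a determinant. `hQ`: periodicity
(`dvd_eval_congr` / `per_dvd` in `MT/T2.lean`). `L.R_dns`: `rhoW = ρ` except on `X1`, where it is `0 ≤ ρ`
(`gd p = 1/(p-1)`), `ρ p ≤ 2/z` for `p > z`. `E q` = the maximum of `er a N (|u l| q) b` over the `b` coprime to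
`|u l| q`, attained at `c q` (as in `exists_worst`, `BV/Classes.lean`), and `0` for `q = 0`. Errors: the first
is `3 B^2 ∑ (6|ι|D)^ω(q) E q` over squarefree `q ≤ Y^2 Y0 ≤ n^(0.002 + 0.4974) ≤ n^(0.4995)`: `b = 6 |ι| D`,
`A' = A + 1`. The second: `∏_{P1} (1 + ρ) ≤ ∏_{p ≤ n} (1 + 2D/(p-1)) ≤ C (log n)^(2D)` (`ρ p ≤ 2D/p` from `Dens (2D)`,
`R_pr`), `∏_j (1 + 3|ι|/(j-1)) ≤ C (log n)^(3|ι|)`, `z ≥ n^(1/B0)`: total
`≤ n log n * C' (log n)^C' n^(-1/B0) ≤ n/(2 (log n)^A)`. (`F.ri n z l l' y = fun p => if F.Q .. then 1 else 0`.) -/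
def S_app : Prop := G.R_gen → L.R_dns → L.R_P → W.R_pr → R_app

/-- From sums over `N = u x + v` to sums over `x`. -/
def R_cnv : Prop := ∀ (u v : ℤ) (n N : ℕ) (a : ℕ → ℝ) (h : ℤ → ℝ), u ≠ 0 → a 0 = 0 →
  (∀ x : ℤ, a (u * x + v).toNat ≠ 0 → 0 < x ∧ x < n ∧ (u * x + v).toNat ≤ N) →
  ∑ k ∈ (Icc 1 N).filter (fun k : ℕ => u ∣ (k : ℤ) - v), a k * h (((k : ℤ) - v) / u) =
    ∑ x ∈ Ioo 0 n, a (u * (x : ℤ) + v).toNat * h x

/-- [CM cnv] Proof: restrict both sums to the terms with `a ≠ 0` and use the bijection `k ↦ (k - v)/u`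
(`Finset.sum_bij_ne_zero`): for `k ≥ 1`, `u ∣ k - v`, `x = (k - v)/u`: `u x + v = k`, `toNat = k`, so `a k ≠ 0` gives
`0 < x < n`. Conversely for `x` with `a (u x + v).toNat ≠ 0`: `(u x + v).toNat ≠ 0` as `a 0 = 0`, so
`k = u x + v ≥ 1`, `k ≤ N`. -/
def S_cnv : Prop := R_cnv

/-! ### The three sums -/

/-- The lower bound for the sum with the sieve and the first Chen weight. -/
def R_T12 : Prop := ∀ (ι : Type) [Fintype ι] [DecidableEq ι] [Nonempty ι] (D : ℕ) (F : Fam ι D)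
  (C B0 M B A : ℕ), 1 ≤ C → 1 ≤ D → 1 ≤ B0 → 1 ≤ M → ∀ᶠ n : ℕ in atTop, ∀ (n' : ℕ)
  (P : Finset ℕ), Par F B0 M n n' P → ∀ Fp Fm, Pre D n' Fp Fm → ∀ (i : ι)
  (g : (PJf P → Option ι) → ℝ), Wts B (yM M n) none (some i) g →
  2105 / 10000 * (F.hw * n * (F.V n n' / kapD (z0 D n'))) * (V (z0 D n' + 1) (kz n) * qf g) -
      n / (Real.log n) ^ A ≤
    ∑ x ∈ Ioo 0 n, F.a0 n (F.L n none x).toNat *
      (F12 Fp Fm (z0 D n' + 1) (kz n) (ky C n) (lD n) (F.ri n (z0 D n') none (some i) x) *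
        ZI (DF F n P) g x ^ 2)

/-- [CM T12] (uses app, cnv, S main, S rc, L dns, mass, bvF, win, P) Proof: `R_cnv` with `a = F.a0 n`,
`N = F.NX n none = ⌊3X⌋₊` (`F.a0 n 0 = 0` since `thP 0 = 0`; `a0 (..).toNat ≠ 0` implies `L > 0`, `wi ≠ 0`, `R_win`) and
`h y = F12 .. (F.ri .. y) * ZI .. y ^ 2`. `R_app` with `l = none`, `l' = some i`, `y = ky C n ≤ n`, `Ff = F12 ..`:
`R_rc` (`Q0 = (lev ..)^3 ≤ n^(1/1000)`, `Q0 * lD n ≤ n^(0.001 + 273/550) ≤ n^(0.4974)`; `z < kz n` as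
`z ≤ lev ≤ n^(1/1000)`, `kz n * ky C n < lD n`, `PK` and `Pr (z+1) ..` are disjoint; `RepB.mono` to pass from
natural to real bounds), `R_bvF` (with the `b`, `A'` of `R_app`), `sT ≤ 1.002 hw n |u| ≤ n log n`. Main term:
`Ff (rd) ≥ 0.211 V0 V1` by `R_main` with `ρ = F.rd n z none`, `V0 = W ρ (PK (2D) n')`: `Fp ρ`, `Fm ρ` only depend on
`ρ` on `PK (2D) n'` (form of `RepB`), where `ρ` agrees with the `Dens (2D)` function of `R_dns`; `Pre.mt`,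
`Pre.pt`; `ρ p = gd p` for `p > z`. `V0/φ(|u|) = V/(κ |u|)` and `sT ≥ 0.998 hw n |u|`, `qf g ≥ 0` (`bil_bounds` in
Lib/MP_89da58_nt, as used in `SieveA.lean`: `x' j |ι| ≤ 1`), `V1 ≥ 0`: main `≥ 0.998 * 0.211 Φ V1 b`. -/
def S_T12 : Prop := R_app → R_cnv → S.R_main → S.R_rc → L.R_dns → L.R_mass → L.R_bvF → L.R_win →
  L.R_P → R_T12

/-- The upper bound for the switched sum. -/
def R_T3 : Prop := ∀ (ι : Type) [Fintype ι] [DecidableEq ι] [Nonempty ι] (D : ℕ) (F : Fam ι D)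
  (C B0 M B A : ℕ), 1 ≤ C → 1 ≤ D → 1 ≤ B0 → 1 ≤ M → ∀ᶠ n : ℕ in atTop, ∀ (n' : ℕ)
  (P : Finset ℕ), Par F B0 M n n' P → ∀ Fp Fm, Pre D n' Fp Fm → ∀ (i : ι)
  (g : (PJf P → Option ι) → ℝ), Wts B (yM M n) none (some i) g →
  Real.log (3 * F.X n none) * ∑ x ∈ Ioo 0 n, F.a3 C n i (F.L n (some i) x).toNat *
      (F3 Fp (z0 D n' + 1) (k3 n) (lD n) (F.ri n (z0 D n') (some i) none x) *
        ZI (DF F n P) g x ^ 2) ≤
    391 / 1000 * (F.hw * n * (F.V n n' / kapD (z0 D n'))) * (V (z0 D n' + 1) (kz n) * qf g) +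
      n / (Real.log n) ^ A

/-- [CM T3] (uses app, cnv, S main, S rc, L dns, mass, bvF, win, P) Proof: as `S_T12` with `l = some i`,
`l' = none`, `a = F.a3 C n i` (`cv _ 0 = 0`), `y = ky C n`, `Ff = F3 ..` (`k3 n ≤ ky C n`, `k3 n ≤ lD n`); apply `R_app` with
`A + 1`. `sT ≤ 0.583 hw n |u|/log n`, `Ff (rd) ≤ 0.67 V0 V1`, `V0/φ(|u|) = V/(κ|u|)`, and
`log(3 X n none) ≤ 1.0005 log n` for large `n` (`X n none = t n + c`): `0.583 * 0.67 * 1.0005 ≤ 0.391`; the error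
`n/(log n)^(A+1)` times `log(3X)`: enlarge `A + 1` to `A + 2`. (`sT >= 0` by `R_mass`; if `V0 V1 = 0` fine.) -/
def S_T3 : Prop := R_app → R_cnv → S.R_main → S.R_rc → L.R_dns → L.R_mass → L.R_bvF → L.R_win →
  L.R_P → R_T3

/-- The upper bound for the full sum. -/
def R_S0 : Prop := ∀ (ι : Type) [Fintype ι] [DecidableEq ι] [Nonempty ι] (D : ℕ) (F : Fam ι D)
  (B0 M B A : ℕ), 1 ≤ D → 1 ≤ B0 → 1 ≤ M → ∀ᶠ n : ℕ in atTop, ∀ (n' : ℕ)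
  (P : Finset ℕ), Par F B0 M n n' P → ∀ Fp Fm, Pre D n' Fp Fm →
  ∀ g : (PJf P → Option ι) → ℝ, Wts B (yM M n) none none g →
  ∑ x ∈ Ioo 0 n, F.a0 n (F.L n none x).toNat *
      (Fp (F.ri n (z0 D n') none none x) * ZI (DF F n P) g x ^ 2) ≤
    101 / 100 * (F.hw * n * (F.V n n' / kapD (z0 D n'))) * qf g + n / (Real.log n) ^ A

/-- [CM S0] (uses app, cnv, L dns, mass, bvF, win, P) Proof: as `S_T12` with `l = l' = none`,
`y = z0 D n' + 1` (`Pr (z+1) (z+1) = ∅`; `y ≤ n`), `Ff = Fp` (a `RepB` function is a `RepC` function, the support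
condition `∏ ≤ lev^3 ≤ n^(1/1000)`). `Fp (rd) ≤ 1.001 V0`, `sT ≤ 1.002 hw n |u|`. -/
def S_S0 : Prop := R_app → R_cnv → L.R_dns → L.R_mass → L.R_bvF → L.R_win → L.R_P → R_S0

/-! ### Pointwise inequalities -/

open Classical in
/-- Chen's weight. -/
def R_chn : Prop := ∀ C n m : ℕ, 1 ≤ m → m < C * n → 2 ≤ kz n →
  (∀ p : ℕ, p.Prime → p ∣ m → kz n ≤ p) →
  1 - 1 / 2 * (((Pr (kz n) (ky C n)).filter (fun q => q ∣ m)).card : ℝ) - 1 / 2 * cv (al C n) m ≤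
    (if cardFactors m ≤ 2 then (1 : ℝ) else 0) +
      (if ∃ q : ℕ, q.Prime ∧ kz n ≤ q ∧ q ^ 2 ∣ m then 1 else 0)

/-- [CM chn] Proof: `y = ky C n = ⌈(C n)^(1/3)⌉₊`, so `y^3 ≥ C n > m`. The left side is `≤ 1` (`cv ≥ 0`), so assume
that `q^2 ∤ m` for all primes `q ≥ kz n` (so `m` is squarefree) and `Ω(m) ≥ 3`; to show: the left side is
`≤ 0`. If at least two primes of `[kz n, y)` divide `m` this is clear. If none: all prime factors of `m`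
are `≥ y` and there are at least three of them: `m ≥ y^3 > m`, impossible. If exactly one, `p1`: `m = p1 m'`,
`p1 ∤ m'`, all prime factors of `m'` are `≥ y`, `Ω(m') ≥ 2`, and `Ω(m') ≥ 3` is impossible (`m' ≥ y^3`), so
`m' = p2 p3`, `y ≤ p2 ≤ p3`, and `p1 p2^2 ≤ p1 p2 p3 = m ≤ C n`: so `k = p1 p2 ∣ m`, `al C n k = 1`, `m/k = p3` prime,
`cv (al C n) m ≥ 1`, and the left side is `≤ 1 - 1/2 - 1/2`. -/
def S_chn : Prop := R_chn

open Classical in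
/-- The pointwise lower bound. -/
def R_pw1 : Prop := ∀ (ι : Type) [Fintype ι] [DecidableEq ι] [Nonempty ι] (D : ℕ) (F : Fam ι D)
  (C B0 M : ℕ), 1 ≤ D → 1 ≤ B0 → 1 ≤ M → (∀ᶠ n : ℕ in atTop, ∀ l, 3 * F.X n l < C * n) →
  ∀ᶠ n : ℕ in atTop, ∀ (n' : ℕ) (P : Finset ℕ), Par F B0 M n n' P → ∀ Fp Fm, Pre D n' Fp Fm →
  ∀ (B A V1 τ : ℝ) (lam : (PJf P → Option ι) → ℝ) (lami : ι → (PJf P → Option ι) → ℝ),
  WPk P (yM M n) B A V1 τ lam lami → ∀ (x : ℤ) (i : ι), F.a0 n (F.L n none x).toNat ≠ 0 →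
  F12 Fp Fm (z0 D n' + 1) (kz n) (ky C n) (lD n) (F.ri n (z0 D n') none (some i) x) *
      ZI (DF F n P) (lami i) x ^ 2 -
    1 / 2 * ((if F.Rg n (z0 D n') x then cv (al C n) (F.L n (some i) x).toNat else 0) *
      ZI (DF F n P) (lami i) x ^ 2) ≤
  if F.Rg n (z0 D n') x then ZI (DF F n P) lam x ^ 2 *
    ((if cardFactors (F.L n (some i) x).toNat ≤ 2 then (1 : ℝ) else 0) +
      (if ∃ q : ℕ, q.Prime ∧ kz n ≤ q ∧ q ^ 2 ∣ (F.L n (some i) x).toNat then 1 else 0)) else 0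

/-- [CM pw1] (uses S pt, chn, L win) Proof: `z = z0 D n' ≤ lev ≤ n^(1/1000)`. `N = (L n none x).toNat` is a prime
`> X/3` (`R_win`; `thP N ≠ 0`, `wi ≠ 0`, `N ≥ 1` so `L n none x = N > 0`), larger than `ky C n`. `m = L n (some i) x > 0`,
`m ≤ 3X < C n`. Let `ρ = F.ri n z none (some i) x`: `ρ p = 1` iff (`p ≤ z`: `p ∣ Gc(x)`; `p > z`: `p ∣ m`) and `p ∤ N`.
For primes `p < ky C n` the condition `p ∤ N` is automatic. For `p ≤ z`: `p ∣ G(x)` iff `p ∣ Gc(x)`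
(`G = L_none * Gc`, `F.hG`). So `W ρ (PK (2D) n') = [Rg]` (`W_ind` in `MT/T2.lean`), `W ρ (Pr (z+1) (kz n))` = [no
prime in `(z, kz n)` divides `m`], `∑_{q ∈ Pr (kz n) (ky C n)} ρ q` = the number of these `q` dividing `m`. If `Rg`
then no prime `≤ z` divides `m` (`m ∣ G(x)`). `R_pt`: `F12 ≤ W W (1 - 1/2 ∑)`. If `Rg` and no prime `< kz n` divides
`m`: no `j ∈ P` divides `m` (`j ≤ yM M n ≤ n^(1/1000) < kz n`), so `ZI lam x = ZI (lami i) x` (`WPk.link`) and `R_chn`,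
multiplied by `ZI^2 ≥ 0`. Otherwise `F12 ≤ 0`, `cv ≥ 0`: the left side is `≤ 0`, the right side `≥ 0`. -/
def S_pw1 : Prop := S.R_pt → R_chn → L.R_win → R_pw1

open Classical in
/-- The pointwise upper bound for the switched sum. -/
def R_pw3 : Prop := ∀ (ι : Type) [Fintype ι] [DecidableEq ι] [Nonempty ι] (D : ℕ) (F : Fam ι D)
  (C B0 M : ℕ), 1 ≤ D → 1 ≤ B0 → 1 ≤ M → 1 ≤ C →
  ∀ᶠ n : ℕ in atTop, ∀ (n' : ℕ) (P : Finset ℕ), Par F B0 M n n' P → ∀ Fp Fm, Pre D n' Fp Fm →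
  ∀ (x : ℤ) (i : ι),
  (if F.Rg n (z0 D n') x then
      F.a0 n (F.L n none x).toNat * cv (al C n) (F.L n (some i) x).toNat else 0) ≤
    Real.log (3 * F.X n none) * (F.a3 C n i (F.L n (some i) x).toNat *
      F3 Fp (z0 D n' + 1) (k3 n) (lD n) (F.ri n (z0 D n') (some i) none x))

/-- [CM pw3] (uses S pt, L win) Proof: the right side is always `≥ 0`: `3X ≥ 1`, `a3 = cv * wi ≥ 0`,
`F3 ≥ W ρ (PK) W ρ (Pr (z+1) (k3 n)) ≥ 0` by `R_pt`, `ρ = F.ri n z (some i) none x`. So assume `Rg`, `a0 ≠ 0`. As in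
`S_pw1` `N = L n none x` is a prime with `X/3 < N ≤ 3X`, `N > k3 n`; `m = L n (some i) x > 0`. `ρ p = 0` for all primes
`p < k3 n`: for `p ≤ z`, `p ∣ Gc(x)` would give `p ∣ G(x)`, against `Rg`; for `z < p < k3 n`, `p ∤ N`. So both products
are `1` and `F3 ≥ 1`. `a0 = log N * wi n none N ≤ log(3X) * wi n (some i) m` (`R_win`, third part, `R_win` second
part), multiply by `cv ≥ 0`. -/
def S_pw3 : Prop := S.R_pt → L.R_win → R_pw3

open Classical in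
/-- The size of the weights at the points without small prime factors. -/
def R_wm : Prop := ∀ (ι : Type) [Fintype ι] [DecidableEq ι] [Nonempty ι] (D : ℕ) (F : Fam ι D)
  (B0 M B : ℕ), 1 ≤ D → 1 ≤ B0 → 1 ≤ M → ∀ᶠ n : ℕ in atTop, ∀ (n' : ℕ) (P : Finset ℕ),
  Par F B0 M n n' P → ∀ g : (PJf P → Option ι) → ℝ, Wts B (yM M n) none none g → ∀ x : ℤ,
  F.a0 n (F.L n none x).toNat ≠ 0 → F.Rg n (z0 D n') x →
  ZI (DF F n P) g x ^ 2 ≤ (2 ^ (Fintype.card ι * (B0 + 1)) * (B : ℝ)) ^ 2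

/-- [CM wm] (uses L win) Proof: `abs_ZI_le` (`MT/Zb.lean`). For `i ∈ ι`: `0 < m = L n (some i) x ≤ 3X ≤ C' n`
(`R_win`), and `m ∣ G(x)` has no prime factor `≤ z`; the number of `j ∈ P` dividing `m` is at most the number
`k` of prime factors of `m`, `z^k ≤ m ≤ C' n ≤ z * z^B0` for large `n`, so `k ≤ B0 + 1`. -/
def S_wm : Prop := L.R_win → R_wm

open Classical in
/-- The points at which a member is divisible by the square of a large prime. -/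
def R_sq : Prop := ∀ (ι : Type) [Fintype ι] [DecidableEq ι] [Nonempty ι] (D : ℕ) (F : Fam ι D)
  (B0 M B A : ℕ), 1 ≤ D → 1 ≤ B0 → 1 ≤ M → ∀ᶠ n : ℕ in atTop, ∀ (n' : ℕ) (P : Finset ℕ),
  Par F B0 M n n' P → ∀ g : (PJf P → Option ι) → ℝ, Wts B (yM M n) none none g → ∀ i : ι,
  ∑ x ∈ Ioo 0 n, F.a0 n (F.L n none x).toNat *
    (if F.Rg n (z0 D n') x then ZI (DF F n P) g x ^ 2 *
      (if ∃ q : ℕ, q.Prime ∧ kz n ≤ q ∧ q ^ 2 ∣ (F.L n (some i) x).toNat then 1 else 0) else 0)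
  ≤ n / (Real.log n) ^ A

/-- [CM sq] (uses wm, win) Proof: `a0 ≤ log(3X) ≤ 2 log n`, `ZI^2 ≤` constant (`R_wm`). If `a0 ≠ 0` then
`0 < m = L n (some i) x ≤ C' n` (`R_win`). The number of `x ∈ (0, n)` with `q^2 ∣ u x + v` for some prime
`q ≥ kz n` is at most `∑_{kz n ≤ q ≤ sqrt(C' n)} (n/q^2 + 1)` (`q ∤ u` for large `n` since `q > |u|`; one residue class
modulo `q^2`), `≤ n/(kz n - 1) + sqrt(C' n) ≤ n^(1 - 1/12)` for large `n`. -/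
def S_sq : Prop := R_wm → L.R_win → R_sq

/-! ### The final count -/

open Classical in
/-- The number of good points. -/
def R_cnt : Prop := ∃ c0 : ℝ, 0 < c0 ∧ ∀ (ι : Type) [Fintype ι] [DecidableEq ι] [Nonempty ι],
  ∃ M : ℕ, 1 ≤ M ∧ ∀ (D B0 : ℕ) (h : ℝ), 1 ≤ D → 1 ≤ B0 → 0 < h → ∃ c : ℝ, 0 < c ∧
  ∀ F : Fam ι D, F.hw = h → ∀ᶠ n : ℕ in atTop, ∀ n' : ℕ, n ≤ z0 D n' ^ B0 →
  (lev (2 * D) n' : ℝ) ^ (3 * M) ≤ (n : ℝ) ^ (1 / 1000 : ℝ) →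
  (2 : ℝ) ^ (2 * D + n') ≤ Real.log n →
  c * (n * F.V n n') ≤ (((Ioo 0 n).filter (fun x : ℕ => F.Rg n (z0 D n') x ∧
    (F.L n none x).natAbs.Prime ∧
    c0 * Real.log (Fintype.card ι) ≤
      ((univ.filter (fun i : ι => cardFactors (F.L n (some i) x).natAbs ≤ 2)).card : ℝ) ∧
    1 ≤ (univ.filter (fun i : ι => cardFactors (F.L n (some i) x).natAbs ≤ 2)).card)).card : ℝ)

/-- [CM cnt] (uses T12, T3, S0, pw1, pw3, wm, sq, S pre, L P, L win, W wp) Proof: `K = |ι|`, `c'` the constant of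
`R_wp`, `M` from `R_wp` for `ι`; `B = B0^K`. `C` natural with `3 X n l < C n` for all `l` and large `n`. For large
`n` and admissible `n'`: `z ≤ lev`, `z^M ≤ lev^(3M) ≤ n^(1/1000)`, `lev^3 ≤ n^(1/1000)` (`lev ≥ 1`). `P, Ex` from `L.R_P` with
`R = yM M n`; `lam, lami, A, τ` from `R_wp`; `Fp, Fm` from `R_pre` (`K = 2D`). `Par` holds. The weights `lam` satisfy
`Wts B _ none none`, `lami i` satisfies `Wts B _ none (some i)` (from `part α i = ∅`). Write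
`Φ = hw n V/κ`, `e = n/(log n)^(8D+2)`, `b_i = qf (lami i)`, `Z = ZI (DF F n P) lam x`. For every `i`, by `R_pw1` times
`a0 ≥ 0`, `R_pw3`, `R_T12`, `R_T3` (exponent `8D + 2`):
`∑_x a0 [Rg] Z^2 ([Ω_i ≤ 2] + [sq_i]) ≥ 0.2105 Φ V1 b_i - e - (1/2)(0.391 Φ V1 b_i + e) ≥ 0.015 Φ τ A - 2 e`
(`V1 b_i ≥ τ A`), and by `R_sq` the part with `[sq_i]` is `≤ e`. `S := ∑_x a0 [Rg] Z^2 ≤ 1.01 Φ qf lam + e ≤ 2.02 Φ A + e`
(`[Rg] ≤ Fp (ri ..)` by `Pre.pt`, as in `S_pw1`). `V ≥ c1/(log n)^(8D)` (`W_ge` for `F.V`, used in `MT/Core.lean`; it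
needs `2^(2D+n') ≤ log n`), `κ ≤ 1`, `τ ≥ c'/(K B0)`, `A ≥ 1`: so `3 e ≤ 0.001 Φ τ A` and `e ≤ 0.01 Φ A` for large `n`. Hence
`∑_i ∑_x a0 [Rg] Z^2 [Ω_i ≤ 2] ≥ 0.014 K τ Φ A`, `S ≤ 2.03 Φ A`. Let `N(x)` be the number of `i` with `Ω_i ≤ 2` and
`s = 0.003 K τ`; the `x` with `N(x) < s` or `N(x) = 0` contribute at most `s S ≤ 0.0061 K τ Φ A`; so
`∑_{x : N(x) ≥ s, N(x) ≥ 1} a0 [Rg] Z^2 K ≥ 0.007 K τ Φ A`. Each term with `a0 ≠ 0` is at most `2 log n * (2^(K(B0+1)) B)^2 * K`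
(`R_wm`), so the number of these `x` is at least `c'' τ Φ/log n ≥ c n V`, because `1/κ ≥ log z ≥ (log n)/B0`
(`kapD_mul_log_le`). `a0 ≠ 0` implies that `L n none x` is a prime and all `L n l x > 0` (`toNat = natAbs`);
`s ≥ 0.003 c' log K`: `c0 = 0.003 c'`. -/
def S_cnt : Prop := R_T12 → R_T3 → R_S0 → R_pw1 → R_pw3 → R_wm → R_sq → S.R_pre → L.R_P → L.R_win →
  W.R_wp → R_cnt

open Classical in
/-- The final theorem. -/
def R_final : Prop := ∃ c0 : ℝ, 0 < c0 ∧ ∀ m d : ℕ, 1 ≤ m → 1 ≤ d → ∃ (B : ℕ) (c : ℝ), 0 < c ∧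
  ∀ f : Fin m → MvPolynomial (Fin 2) ℤ, Admissible f → (∀ k, (f k).totalDegree ≤ d) →
  ∀ (k0 : Fin m) (I : Finset (Fin m)), k0 ∉ I → I.Nonempty →
  (∀ k ∈ insert k0 I, (f k).totalDegree ≤ 1) →
  (∀ k ∈ insert k0 I, ∀ l ∈ insert k0 I, k ≠ l → f k ≠ f l ∧ f k ≠ - f l) →
  ∃ N : ℕ, ∀ n : ℕ, N ≤ n → c * (n * singV f n) ≤
    (Set.ncard {x : ℕ | 0 < x ∧ x < n ∧ (val (f k0) x ((n : ℤ) - x)).natAbs.Prime ∧
      c0 * Real.log I.card ≤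
        ((I.filter (fun k => cardFactors (val (f k) x ((n : ℤ) - x)).natAbs ≤ 2)).card : ℝ) ∧
      1 ≤ (I.filter (fun k => cardFactors (val (f k) x ((n : ℤ) - x)).natAbs ≤ 2)).card ∧
      ∀ k, 1 < |val (f k) x ((n : ℤ) - x)| ∧
      (∀ p : ℕ, p.Prime → (p : ℤ) ∣ val (f k) x ((n : ℤ) - x) → n < p ^ B) ∧
      cardFactors (val (f k) x ((n : ℤ) - x)).natAbs ≤ B * d} : ℝ)

/-- [CM fin] (uses cnt, L fam) Proof: compare the end of `MT/Core.lean` (theorem `core`) and `MT/Dense.lean`. For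
fixed `m, d` and each of the finitely many `I ⊆ Fin m`, nonempty: `D = m d`, `M = M_I` from `R_cnt` for
`ι = {k // k ∈ I}`, `B_I = 128000 * (2D) * (3M)`, `h = 1/(4000(m+2))`, `c_I` from `R_cnt`; `B = max B_I`, `c = (1/2) min c_I`.
For `f, k0, I` as in the statement let `F` be from `R_fam`. For large `n`, `choose_levS (2D) (3M) .. c2`
(`MT/Level.lean`) gives `n'` with `lev (2D) n'^(3M) ≤ n^(1/1000)`, `n ≤ z^(B_I)`, `2^(2D+n') ≤ log n`,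
`c2 = ∑ Cf k + 2 ≤ z`. `R_cnt` gives at least `c_I n V` points `x`. At each of them, except at most `2D` points
(`card_unit_le`), `good_of_rough` (its hypothesis: no prime `≤ z` divides any `val (f k) x (n-x)`, which follows
from `Rg`, as `F.G n = ∏ lineRestrict (f k) n` and `eval_lineRestrict`) gives the statements for all `k` with
`B_I`, hence with `B` (`n < p^(B_I) ≤ p^B`). The values: last part of `R_fam`; the cardinalities over `{k // k ∈ I}`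
and over `I.filter` agree (`card_filter_sub`). `singV f n ≤ V` (`singV_le`), `V ≥ c1/(log n)^(8D)` (`W_ge`), so
`2D ≤ (c_I/2) n V` for large `n`. -/
def S_fin : Prop := R_cnt → L.R_fam → R_final

end Pool.Agent.CM.F
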