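import Pool.Agent.Lib.MP_0da313_nt.CM.F
import Pool.Agent.Lib.MP_0da313_nt.MT.Sharp

set_option autoImplicit false

/-!
Project CM: the final theorem for all sets `I`, empty or not.
-/

namespace Pool.Agent.CM

open Finset Filter Polynomial
open ArithmeticFunction (cardFactors)
open Pool.Agent.Lib.MP_0da313_nt (Admissible lineRestrict val singV)

theorem singV_nonneg {m : ℕ} (f : Fin m → MvPolynomial (Fin 2) ℤ) (n : ℕ) : 0 ≤ singV f n := by
  unfold singV
  refine Finset.prod_nonneg fun p hp => ?_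
  have hpp : p.Prime := (Finset.mem_filter.1 hp).2
  have h1 : Pool.Agent.Lib.MP_0da313_nt.nroots f n p ≤ p := by
    unfold Pool.Agent.Lib.MP_0da313_nt.nroots
    exact (Finset.card_filter_le _ _).trans (by simp)
  have hp0 : (0 : ℝ) < p := by exact_mod_cast hpp.pos
  have h2 : (Pool.Agent.Lib.MP_0da313_nt.nroots f n p : ℝ) / p ≤ 1 := by
    rw [div_le_one hp0]
    exact_mod_cast h1
  linarith

open Classical in
/-- The final theorem, including the case that `I` is empty. -/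
theorem final_all (hfin : F.R_final) : ∃ c₀ : ℝ, 0 < c₀ ∧ ∀ m d : ℕ, 1 ≤ m → 1 ≤ d →
    ∃ (B : ℕ) (c : ℝ), 0 < c ∧ ∀ f : Fin m → MvPolynomial (Fin 2) ℤ,
      (∀ k, (f k).totalDegree ≤ d) → Admissible f →
      ∀ (k₀ : Fin m) (I : Finset (Fin m)), k₀ ∉ I →
      (∀ k ∈ insert k₀ I, (f k).totalDegree ≤ 1) →
      (∀ k ∈ insert k₀ I, ∀ l ∈ insert k₀ I, k ≠ l → f k ≠ f l ∧ f k ≠ - f l) →
      ∃ N : ℕ, ∀ n : ℕ, N ≤ n → c * (n * singV f n) ≤
        (Set.ncard {x : ℕ | 0 < x ∧ x < n ∧ (val (f k₀) x ((n : ℤ) - x)).natAbs.Prime ∧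
          c₀ * Real.log I.card ≤
            ((I.filter (fun k => cardFactors (val (f k) x ((n : ℤ) - x)).natAbs ≤ 2)).card : ℝ) ∧
          (I.Nonempty →
            1 ≤ (I.filter (fun k => cardFactors (val (f k) x ((n : ℤ) - x)).natAbs ≤ 2)).card) ∧
          ∀ k, 1 < |val (f k) x ((n : ℤ) - x)| ∧
          (∀ p : ℕ, p.Prime → (p : ℤ) ∣ val (f k) x ((n : ℤ) - x) → n < p ^ B) ∧
          cardFactors (val (f k) x ((n : ℤ) - x)).natAbs ≤ B * d} : ℝ) := by
  obtain ⟨c₀, hc₀, h⟩ := hfin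
  refine ⟨c₀, hc₀, fun m d hm hd => ?_⟩
  obtain ⟨B1, c1, hc1, h1⟩ := h m d hm hd
  have hmd : (0 : ℝ) < 10 ^ 10 * (m * d) := by
    have : (0 : ℝ) < (m : ℝ) * d := by
      have hm' : (0 : ℝ) < m := by exact_mod_cast hm
      have hd' : (0 : ℝ) < d := by exact_mod_cast hd
      positivity
    positivity
  refine ⟨max B1 (16000 * (m * d)), min c1 (1 / (10 ^ 10 * (m * d))),
    lt_min hc1 (by positivity), fun f hdeg hf k₀ I hk hlin hne => ?_⟩
  have hfinite : ∀ (n : ℕ) (S : Set ℕ), S ⊆ {x : ℕ | x < n} → S.Finite :=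
    fun n S hS => (Set.finite_lt_nat n).subset hS
  have hpow : ∀ (n p B B' : ℕ), p.Prime → B ≤ B' → n < p ^ B → n < p ^ B' := fun n p B B' hp hB h =>
    h.trans_le (Nat.pow_le_pow_right hp.pos hB)
  rcases I.eq_empty_or_nonempty with hI | hI
  · subst hI
    obtain ⟨N, hN⟩ := Pool.Agent.MT.prime_value_sharp m d hm hd f hdeg hf k₀
      (hlin k₀ (mem_insert_self _ _))
    refine ⟨N, fun n hn => ?_⟩
    have hs : 0 ≤ (n : ℝ) * singV f n := mul_nonneg (Nat.cast_nonneg _) (singV_nonneg f n)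
    refine le_trans ?_ (le_trans (hN n hn) ?_)
    · have : min c1 (1 / (10 ^ 10 * (m * d))) * (n * singV f n) ≤
          (1 / (10 ^ 10 * ((m : ℝ) * d))) * (n * singV f n) :=
        mul_le_mul_of_nonneg_right (min_le_right _ _) hs
      refine this.trans (le_of_eq ?_)
      ring
    · refine Nat.cast_le.2 (Set.ncard_le_ncard ?_ (hfinite n _ fun x hx => hx.2.1))
      rintro x ⟨hx0, hxn, hp, hall⟩
      refine ⟨hx0, hxn, hp, by simp, fun h => absurd h (by simp), fun k => ?_⟩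
      obtain ⟨a1, a2, a3⟩ := hall k
      exact ⟨a1, fun p hp hpd => hpow n p _ _ hp (le_max_right _ _) (a2 p hp hpd),
        a3.trans (Nat.mul_le_mul_right _ (le_max_right _ _))⟩
  · obtain ⟨N, hN⟩ := h1 f hf hdeg k₀ I hk hI hlin hne
    refine ⟨N, fun n hn => ?_⟩
    have hs : 0 ≤ (n : ℝ) * singV f n := mul_nonneg (Nat.cast_nonneg _) (singV_nonneg f n)
    refine le_trans (mul_le_mul_of_nonneg_right (min_le_left _ _) hs) ((hN n hn).trans ?_)
    refine Nat.cast_le.2 (Set.ncard_le_ncard ?_ (hfinite n _ fun x hx => hx.2.1))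
    rintro x ⟨hx0, hxn, hp, hlog, hone, hall⟩
    refine ⟨hx0, hxn, hp, hlog, fun _ => hone, fun k => ?_⟩
    obtain ⟨a1, a2, a3⟩ := hall k
    exact ⟨a1, fun p hp hpd => hpow n p _ _ hp (le_max_left _ _) (a2 p hp hpd),
      a3.trans (Nat.mul_le_mul_right _ (le_max_left _ _))⟩

end Pool.Agent.CM
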