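import Pool.Agent.Lib.MP_d610d0_nt.CH.D.Main
import Pool.Agent.Lib.MP_d610d0_nt.CH.S.All
import Pool.Agent.Lib.MP_d610d0_nt.CH.M2.mer
import Pool.Agent.Lib.MP_0da313_nt.CM.C
import Pool.Agent.Lib.MP_0da313_nt.CM.P.bil
import Pool.Agent.Lib.MP_0da313_nt.CM.P.blk
import Pool.Agent.Lib.MP_0da313_nt.CM.P.dya
import Pool.Agent.Lib.MP_0da313_nt.CM.P.tI
import Pool.Agent.Lib.MP_0da313_nt.CM.P.LL
import Pool.Agent.Lib.MP_0da313_nt.CM.P.LCP
import Pool.Agent.Lib.MP_0da313_nt.CM.P.SCP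
import Pool.Agent.Lib.MP_0da313_nt.CM.P.LCA
import Pool.Agent.Lib.MP_0da313_nt.CM.P.SCA
import Pool.Agent.Lib.MP_0da313_nt.CM.P.okP
import Pool.Agent.Lib.MP_0da313_nt.CM.P.one
import Pool.Agent.Lib.MP_0da313_nt.CM.P.swp
import Pool.Agent.Lib.MP_0da313_nt.CM.P.conn
import Pool.Agent.Lib.MP_0da313_nt.CM.P.cop
import Pool.Agent.Lib.MP_0da313_nt.CM.P.bv1
import Pool.Agent.Lib.MP_0da313_nt.CM.P.bv
import Pool.Agent.Lib.MP_0da313_nt.CM.P.mu
import Pool.Agent.Lib.MP_0da313_nt.CM.P.m1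
import Pool.Agent.Lib.MP_0da313_nt.CM.P.mp
import Pool.Agent.Lib.MP_0da313_nt.CM.P.gr
import Pool.Agent.Lib.MP_0da313_nt.CM.P.m3
import Pool.Agent.Lib.MP_0da313_nt.CM.P.pre
import Pool.Agent.Lib.MP_0da313_nt.CM.P.rc
import Pool.Agent.Lib.MP_0da313_nt.CM.P.pt
import Pool.Agent.Lib.MP_0da313_nt.CM.P.ss
import Pool.Agent.Lib.MP_0da313_nt.CM.P.t2
import Pool.Agent.Lib.MP_0da313_nt.CM.P.v3
import Pool.Agent.Lib.MP_0da313_nt.CM.P.main
import Pool.Agent.Lib.MP_0da313_nt.CM.P.v1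
import Pool.Agent.Lib.MP_0da313_nt.CM.P.cls
import Pool.Agent.Lib.MP_0da313_nt.CM.P.prt
import Pool.Agent.Lib.MP_0da313_nt.CM.P.one2
import Pool.Agent.Lib.MP_0da313_nt.CM.P.es1
import Pool.Agent.Lib.MP_0da313_nt.CM.P.es2
import Pool.Agent.Lib.MP_0da313_nt.CM.P.gen
import Pool.Agent.Lib.MP_0da313_nt.CM.P.pr
import Pool.Agent.Lib.MP_0da313_nt.CM.P.bp
import Pool.Agent.Lib.MP_0da313_nt.CM.P.wp
import Pool.Agent.Lib.MP_0da313_nt.CM.P.fam
import Pool.Agent.Lib.MP_0da313_nt.CM.P.P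
import Pool.Agent.Lib.MP_0da313_nt.CM.P.win
import Pool.Agent.Lib.MP_0da313_nt.CM.P.mass
import Pool.Agent.Lib.MP_0da313_nt.CM.P.bvF
import Pool.Agent.Lib.MP_0da313_nt.CM.P.dns
import Pool.Agent.Lib.MP_0da313_nt.CM.P.app
import Pool.Agent.Lib.MP_0da313_nt.CM.P.cnv
import Pool.Agent.Lib.MP_0da313_nt.CM.P.T12
import Pool.Agent.Lib.MP_0da313_nt.CM.P.T3
import Pool.Agent.Lib.MP_0da313_nt.CM.P.S0
import Pool.Agent.Lib.MP_0da313_nt.CM.P.chn
import Pool.Agent.Lib.MP_0da313_nt.CM.P.pw1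
import Pool.Agent.Lib.MP_0da313_nt.CM.P.pw3
import Pool.Agent.Lib.MP_0da313_nt.CM.P.wm
import Pool.Agent.Lib.MP_0da313_nt.CM.P.sq
import Pool.Agent.Lib.MP_0da313_nt.CM.P.cnt
import Pool.Agent.Lib.MP_0da313_nt.CM.P.fin
import Pool.Agent.Lib.MP_0da313_nt.CM.P.sv
import Pool.Agent.Lib.MP_0da313_nt.CM.P.cor

set_option autoImplicit false

/-!
Project CM: the assembly.
-/

namespace Pool.Agent.CM

/-! ### Section B -/

namespace B

theorem h_bil : R_bil := p_bil CH.D.h_ls CH.D.p_kf CH.D.p_kb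

theorem h_blk : R_blk := p_blk h_bil

theorem h_dya : R_dya := p_dya

theorem h_tI : R_tI := p_tI

theorem h_LL : R_LL := p_LL h_blk h_dya h_tI CH.D.p_vau

theorem h_one : R_one := p_one

theorem h_swp : R_swp := p_swp

theorem h_con : R_con := p_con

theorem h_cop : R_cop := p_cop

theorem h_bv1 : R_bv1 := p_bv1 h_one h_swp h_con h_cop

theorem h_bv : R_bv := p_bv h_bv1

theorem h_B : R_B := fun lam h =>
  ⟨h_bv CP lam (p_LCP h_LL lam h) (p_SCP CH.D.h_pwp lam h) (p_okP lam h).1,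
    h_bv CA lam (p_LCA h_blk h_dya lam h) (p_SCA CH.D.h_pwp lam h) (p_okP lam h).2⟩

end B

/-! ### Section M -/

namespace M

theorem h_mu : R_mu := p_mu

theorem h_m1 : R_m1 := p_m1 CH.P.h_PNT

theorem h_mp : R_mp := p_mp h_m1 h_mu

theorem h_gr : R_gr := p_gr CH.M2.p_mer

theorem h_m3 : R_m3 := p_m3 h_mp h_gr

end M

/-! ### Section S -/

namespace S

theorem h_ls : CH.S.S_ls :=
  have hps : CH.S.S_ps := CH.S.p_ps CH.S.p_abel CH.S.p_tel
  have hstL : CH.S.S_stL := CH.S.p_stL hps CH.S.p_exp CH.S.p_tel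
  have hstU3 : CH.S.S_stU3 := CH.S.p_stU3 hps CH.S.p_exp CH.S.p_tel
  have hstU1 : CH.S.S_stU1 := CH.S.p_stU1 CH.S.p_exp CH.S.p_tel
  CH.S.p_ls CH.S.p_eps hstL hstU3 hstU1

theorem h_pre : R_pre := p_pre

theorem h_rc : R_rc := p_rc CH.S.p_rep

theorem h_pt : R_pt := p_pt CH.S.p_pt

theorem h_ss : R_ss := p_ss

theorem h_t2 : R_t2 := p_t2 CH.M2.p_mer

theorem h_v3 : R_v3 := p_v3 CH.P.h_mer2

theorem h_main : R_main := p_main h_ss h_t2 h_v3 CH.S.p_tel CH.S.p_mer h_ls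

theorem h_v1 : R_v1 := p_v1 CH.S.p_tel CH.S.p_mer

end S

/-! ### Section G -/

namespace G

theorem h_cls : R_cls := p_cls

theorem h_prt : R_prt := p_prt

theorem h_one : R_one := p_one2 h_cls

theorem h_es1 : R_es1 := p_es1

theorem h_es2 : R_es2 := p_es2

theorem h_gen : R_gen := p_gen h_one h_prt h_es1 h_es2

end G

/-! ### Section W -/

namespace W

theorem h_pr : R_pr := p_pr CH.P.h_mer2

theorem h_bp : R_bp := p_bp

theorem h_wp : R_wp := p_wp S.h_v1 h_pr h_bp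

end W

/-! ### Section L -/

namespace L

theorem h_fam : R_fam := p_fam

theorem h_P : R_P := p_P

theorem h_win : R_win := p_win

theorem h_mass : R_mass := p_mass M.h_mu M.h_m1 M.h_m3 h_win

theorem h_bvF : R_bvF := p_bvF B.h_B h_win

theorem h_dns : R_dns := p_dns

end L

/-! ### Section F -/

namespace F

theorem h_app : R_app := p_app G.h_gen L.h_dns L.h_P W.h_pr

theorem h_cnv : R_cnv := p_cnv

theorem h_T12 : R_T12 :=
  p_T12 h_app h_cnv S.h_main S.h_rc L.h_dns L.h_mass L.h_bvF L.h_win L.h_P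

theorem h_T3 : R_T3 :=
  p_T3 h_app h_cnv S.h_main S.h_rc L.h_dns L.h_mass L.h_bvF L.h_win L.h_P

theorem h_S0 : R_S0 := p_S0 h_app h_cnv L.h_dns L.h_mass L.h_bvF L.h_win L.h_P

theorem h_chn : R_chn := p_chn

theorem h_pw1 : R_pw1 := p_pw1 S.h_pt h_chn L.h_win

theorem h_pw3 : R_pw3 := p_pw3 S.h_pt L.h_win

theorem h_wm : R_wm := p_wm L.h_win

theorem h_sq : R_sq := p_sq h_wm L.h_win

theorem h_cnt : R_cnt :=
  p_cnt h_T12 h_T3 h_S0 h_pw1 h_pw3 h_wm h_sq S.h_pre L.h_P L.h_win W.h_wp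

/-- The theorem of Chen and Maynard type on the line `x + y = n`. -/
theorem h_final : R_final := p_fin h_cnt L.h_fam

end F

/-! ### Section C -/

namespace C

theorem h_sv : R_sv := p_sv CH.P.h_mer2

/-- The theorem of Chen and Maynard type for the numbers `a n + 1`, `n` prime. -/
theorem h_cor : R_cor := p_cor F.h_final h_sv

end C

end Pool.Agent.CM
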