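import Pool.Agent.Lib.MP_0da313_nt.CM.Defs
import Pool.Agent.Lib.MP_d610d0_nt.CH.S.Stm
import Pool.Agent.Lib.MP_d610d0_nt.CH.M2.Stm
import Pool.Agent.Lib.MP_d610d0_nt.CH.P.Stm

set_option autoImplicit false

/-!
Project CM, section S: the presieve, the linear sieve and the Chen weights.
`th a ρ w b D` are the linear sieve functions (`b = true`: upper bound) for the primes in `[a, w)`,
level `D` (CH/S/Defs.lean), `V a w = ∏_{p ∈ Pr a w} (1 - gd p)`, `gd p = 1/(p-1)`. The statements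
`CH.S.S_pt`, `S_rep`, `S_tel`, `S_mer`, `S_ls` are proved in `Lib/MP_d610d0_nt/CH/S/P/*.lean`
(see `CH/S/All.lean` for how `p_ls` is applied).
-/

namespace Pool.Agent.CM.S

open Finset Filter
open Pool.Agent.Lib.MP_0da313_nt (W)
open Pool.Agent.BVall (om rhoW PK lev RepB Dens)
open Pool.Agent.CH.S (th Pr gd V SS Mer Sm UpC LoC RepC)

/-! ### The presieve -/

/-- The presieve of dimension `K` with accuracy `1/1000`. -/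
def R_pre : Prop := ∀ K : ℕ, 1 ≤ K → ∀ n' : ℕ, ∃ Fp Fm : (ℕ → ℝ) → ℝ,
  RepB (PK K n') (fun T => ∏ p ∈ T, p ≤ lev K n' ^ 3) Fp ∧
  RepB (PK K n') (fun T => ∏ p ∈ T, p ≤ lev K n' ^ 3) Fm ∧
  (∀ ρ : ℕ → ℝ, (∀ p ∈ PK K n', 0 ≤ ρ p ∧ ρ p ≤ 1) →
    Fm ρ ≤ W ρ (PK K n') ∧ W ρ (PK K n') ≤ Fp ρ) ∧
  ∀ ρ : ℕ → ℝ, Dens K ρ → Fp ρ ≤ (1 + 1 / 1000) * W ρ (PK K n') ∧
    (1 - 1 / 1000) * W ρ (PK K n') ≤ Fm ρ

/-- [CM pre] Proof: as `FK`, `YK` in `Lib/MP_0da313_nt/BV/Hooley.lean` (`pointwise_K`, `FK_lower`, `YK_upper`,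
`lev`, `sum_weights2`, `prod_le_lev`, `repB_FK`, `repB_YK`), but with `bb K (n' + 3)` in place of `bb K n'`
(so two times three more terms in each block): `Fp ρ = YY (small K) (fun i => blk (K+i)) (bb K (n'+3)) ρ n'`,
`Fm` the same with `FF` (compare `CH/S/P/fl.lean`, where this is done for `K = 2` and the odd primes).
Main terms: `Dens.ratio (n := n'+3)` gives `E ρ (B i) (b i + 1)/W ρ (B i) ≤ (1/4)(1/16)^(n'+2-i)`, whose sum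
over `i < n'` is `≤ (4/15)(1/16)^3 ≤ 1/10000`; so `Fm ≥ W (1 - 1/10000)` and
`Fp ≤ W exp(1/10000) ≤ W (1 + 1/1000)` as in the proofs of `FK_lower` and `YK_upper`. Support: for `T ⊆ PK K n'`
in the support, `∏ p ∈ T, p ≤ (∏ p ∈ small K, p) * 2^(∑_{i<n'} 2^(K+i+1) (b i + 1))`, where
`b i + 1 = 8K + 2(n' + 2 - i) + 1` is `6` more than for `bb K n'`; so the exponent is at most
`2^(K+n') (16K + 6) + 6 * 2^(K+n'+1) ≤ 3 * 2^(K+n') (16K+6)`, i.e. the product is `≤ lev K n' ^ 3`. -/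
def S_pre : Prop := R_pre

/-! ### The combined sieve functions -/

/-- Representation of the combined sieve functions. -/
def R_rc : Prop := ∀ (P0 : Finset ℕ) (a z y k : ℕ) (Q0 D : ℝ) (Fp Fm : (ℕ → ℝ) → ℝ), 2 ≤ a →
  a ≤ z → z ≤ y → Disjoint P0 (Pr a y) → (k : ℝ) ≤ D → (z : ℝ) * y < D → 1 ≤ Q0 →
  RepB P0 (fun T => ∏ p ∈ T, (p : ℝ) ≤ Q0) Fp → RepB P0 (fun T => ∏ p ∈ T, (p : ℝ) ≤ Q0) Fm →
  RepC (P0 ∪ Pr a y) (fun T => ∏ p ∈ T, (p : ℝ) ≤ Q0 * D) (F12 Fp Fm a z y D) ∧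
  (k ≤ y → RepC (P0 ∪ Pr a y) (fun T => ∏ p ∈ T, (p : ℝ) ≤ Q0 * D) (F3 Fp a k D))

/-- [CM rc] (uses CH.S rep) Proof: `S_rep` (`1 < D`; `z ≤ z y < D`) represents `th a · z false D`,
`th a · z true D` over `Pr a z` with `∏ < D` and coefficients of absolute value `≤ 1`, and for `q ∈ Pr z y`,
`th a · z true (D/q)` (`1 < D/q`, as `q < y ≤ z y < D`) over `Pr a z` with `∏ < D/q`. Products over disjoint
sets: `RepB.mul` (`BV/Hooley.lean`) or `CH/S/P/comp.lean`. The coefficient of `F12` at `T ⊆ P0 ∪ Pr a y`: if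
`T ∩ Pr z y = ∅` it is `c+(T0) c-(T1) + c-(T0) c+(T1) - c+(T0) c+(T1)`, `T0 = T ∩ P0`, `T1 = T ∩ Pr a z`,
absolute value `≤ 3`; if `T ∩ Pr z y = {q}` it is `-(1/2) c+(T0) c_q(T1)`; if `T ∩ Pr z y` has at least two
elements it is `0`. Support: `∏ T0 ≤ Q0`, `∏ T1 < D` resp. `q ∏ T1 < D`. `F3`: `Fp * th a · k true D`; the
representation over `P0 ∪ Pr a k` is extended by zero to `P0 ∪ Pr a y`. (`ρ q` is the product over
`{q}`.) -/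
def S_rc : Prop := CH.S.S_rep → R_rc

/-- Pointwise inequalities for the combined sieve functions. -/
def R_pt : Prop := ∀ (P0 : Finset ℕ) (a z y k : ℕ) (D : ℝ) (Fp Fm : (ℕ → ℝ) → ℝ) (ρ : ℕ → ℝ),
  (∀ p, 0 ≤ ρ p ∧ ρ p ≤ 1) → Fm ρ ≤ W ρ P0 → W ρ P0 ≤ Fp ρ →
  F12 Fp Fm a z y D ρ ≤ W ρ P0 * W ρ (Pr a z) * (1 - 1 / 2 * ∑ q ∈ Pr z y, ρ q) ∧
  W ρ P0 * W ρ (Pr a k) ≤ F3 Fp a k D ρ

/-- [CM pt] (uses CH.S pt) Proof: let `A = W ρ P0`, `B = W ρ (Pr a z)`, both in `[0,1]`, `Am ≤ A ≤ Ap` the values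
of `Fm`, `Fp` and `Bm ≤ B ≤ Bp` those of `th a ρ z false D`, `th a ρ z true D` (`S_pt`; `W ρ (Pr a z)` is the
product there). `Ap Bm + Am Bp - Ap Bp ≤ Ap B + A Bp - Ap Bp = A B - (Ap - A)(Bp - B) ≤ A B` (use `0 ≤ Ap`,
`0 ≤ Bp`). For each `q`: `th a ρ z true (D/q) ≥ B` (`S_pt`), `ρ q ≥ 0`, `Ap ≥ A ≥ 0`, `B ≥ 0`. Second part:
`Fp ρ ≥ A ≥ 0`, `th a ρ k true D ≥ W ρ (Pr a k) ≥ 0`. -/
def S_pt : Prop := CH.S.S_pt → R_pt

/-! ### Numerical input -/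

/-- The supersolution of the linear sieve with the values which are needed. -/
def R_ss : Prop := ∃ (u l U L : ℝ → ℝ) (K : ℝ), SS u l U L K ∧ u 3 ≤ 21566 / 100000 ∧
  l (273 / 50) ≤ 16 / 10000 ∧ u (273 / 50) ≤ 17 / 10000 ∧ T2n u ≤ 15680 / 10000

/-- [CM ss] Proof: the supersolution of `CH/S/P/ss.lean` (`u = cs_ss_F cs_ss_u`, `l = cs_ss_F cs_ss_l`, ..., see the
proof of `p_ss` there: the same functions; the proof of `SS` can be copied or extracted). The values: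
`u x = cs_ss_u ⌊50 x⌋₊`, `cs_ss_u i = tu[i-50]/10^6` (table `cs_ss_tu`) for `50 ≤ i < 300`,
`l x = cs_ss_l ⌊50 x⌋₊`, `tl[i-100]/10^6`. `u 3`: `i = 150`, `0.215660`. `l (273/50)`: `i = 273`, table entry
`1600/10^6`. `u (273/50)`: `i = 273`: about `1600/10^6` (check the entry; if it is larger than `1700` tell
helper98). `T2n u = 1.56792`: the sum over `i ∈ [90, 222]` of
`(1 + tu[i-50]/10^6) (2(272-i)+1)/(2(272-i)(273-i))` plus the end term (`⌊50 * (89/50)⌋₊ = 89`); evaluate in the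
kernel (`decide +kernel` on integers after rounding each term up to a multiple of `10^(-9)`, or `norm_num`
term by term as in `CH/M2/num.lean`). -/
def S_ss : Prop := R_ss

/-- The sum over `q` in the Chen weight. -/
def R_t2 : Prop := ∀ u : ℝ → ℝ, (∀ x y, 1 ≤ x → x ≤ y → u y ≤ u x) → (∀ x, 1 ≤ x → 0 < u x) →
  ∀ (C : ℕ) (δ : ℝ), 1 ≤ C → 0 < δ → ∀ᶠ n : ℕ in atTop,
  ∑ q ∈ Pr (kz n) (ky C n), gd q *
    (1 + u (Real.log (lD n / q) / Real.log ((n : ℝ) ^ (1 / 11 : ℝ)))) ≤ T2n u + δ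

/-- [CM t2] (uses CH.M2 mer) Proof: for a prime `q = n^t` with `kz n ≤ q < ky C n`: `t ≥ 1/11`,
`t ≤ 1/3 + η`, `η → 0`, and `s_q = log(lD n/q)/log(n^(1/11)) = 11 (273/550 - t)`, so `50 s_q = 273 - 550 t`,
which lies in `[89.66 - 550 η, 223]`. For `i = 222`: the `q` with `50 s_q ≥ 222`; for `91 ≤ i ≤ 221`... and
generally for `90 ≤ i ≤ 221` the `q` with `i ≤ 50 s_q < i + 1`; for `i = 89` the `q` with `50 s_q < 90` (then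
`50 s_q ≥ 89` for large `n`). In the class `i`: `1 + u(s_q) ≤ 1 + u(i/50)` (`u` antitone), and
`t ∈ (t_(i+1), t_i]`, `t_i = (273 - i)/550` (`t_223 = 1/11` exactly), so by `CH.M2.S_mer` the sum of `1/q` is at
most `log(t_i/t_(i+1)) + C'/log n`, `t_i/t_(i+1) = (273-i)/(272-i)`, and `log r ≤ (r - 1/r)/2`
(`CH/M2/log2.lean`): `(2x+1)/(2x(x+1))` with `x = 272 - i`. For `i = 89`: `t ∈ (183/550, 1/3 + η]`, ratio
`550/549 * (1 + 3η)`. `gd q = 1/(q-1) ≤ (1 + 2/kz n) (1/q)`. All errors tend to `0` (`u ≤ u 1` bounded). -/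
def S_t2 : Prop := CH.M2.S_mer → R_t2

/-- The product of the primes between the two sifting limits. -/
def R_v3 : Prop := ∀ δ : ℝ, 0 < δ → ∀ᶠ n : ℕ in atTop,
  V (kz n) (k3 n) ≤ (50 / 91) * (1 + δ) ∧ kz n ≤ k3 n

/-- [CM v3] (uses CH.P mer2) Proof: `V (kz n) (k3 n) = ∏ (1 - 1/(p-1)) ≤ exp(-∑ 1/(p-1)) ≤ exp(-∑ 1/p)` over the
primes `kz n ≤ p < k3 n`, and by Mertens (`CH.P.R_mer2`, with `a = kz n - 1`, `b = k3 n - 1`, large)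
`∑ 1/p ≥ log(log b/log a) - C/log a`, `log b/log a → (91/550)/(1/11) = 91/50`. -/
def S_v3 : Prop := CH.P.R_mer2 → R_v3

/-! ### The main terms -/

/-- The main terms. -/
def R_main : Prop := ∀ B0 C : ℕ, 1 ≤ B0 → 1 ≤ C → ∀ᶠ n : ℕ in atTop, ∀ z : ℕ, n ≤ z ^ B0 →
  (z : ℝ) ≤ (n : ℝ) ^ (1 / 1000 : ℝ) → ∀ (Fp Fm : (ℕ → ℝ) → ℝ) (ρ : ℕ → ℝ) (V0 : ℝ), 0 ≤ V0 →
  V0 ≤ Fp ρ → Fp ρ ≤ (1 + 1 / 1000) * V0 → (1 - 1 / 1000) * V0 ≤ Fm ρ → Fm ρ ≤ V0 →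
  (∀ p : ℕ, z < p → ρ p = gd p) →
  211 / 1000 * (V0 * V (z + 1) (kz n)) ≤ F12 Fp Fm (z + 1) (kz n) (ky C n) (lD n) ρ ∧
  F3 Fp (z + 1) (k3 n) (lD n) ρ ≤ 67 / 100 * (V0 * V (z + 1) (kz n))

/-- [CM main] (uses ss, t2, v3, CH.S tel, mer, ls) Proof: `a = z + 1`, `w = n^(1/11)` (`⌈w⌉₊ = kz n`), `D = lD n`,
`V1 = V a (kz n)`. `th a ρ k b D'` only depends on `ρ p`, `p ∈ Pr a k` (small lemma by induction on `k`), so it
is `th a gd k b D'`. Let `u, l, ...` be from `R_ss`, `S = 3 * B0 + 3`, `ε` from `S_ls`; `a` is large (as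
`z ≥ n^(1/B0)`), so `Mer ε a` by `S_mer`. `log D ≤ log n ≤ B0 log z ≤ S log a`. `log D/log w = 273/50`,
`a ≤ w`, `w^2 ≤ D`: with `Bp = th a gd (kz n) true D`, `Bm = th a gd (kz n) false D`:
`V1 ≤ Bp ≤ V1 (1 + u(273/50)) ≤ 1.0017 V1`, `Bm ≥ V1 (1 - l(273/50)) ≥ 0.9984 V1` (`V1 ≥ 0`, the lower bound
`V1 ≤ Bp` is `CH.S.S_pt`, or not needed). For `q ∈ Pr (kz n) (ky C n)`: `q ≤ n^(0.34)`, so `w ≤ D/q`, and
`th a gd (kz n) true (D/q) ≤ V1 (1 + u(log(D/q)/log w))`; `R_t2` with `δ = 1/10000`: the sum of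
`gd q * th ..` is at most `V1 (T2n u + δ) ≤ 1.5681 V1`. Hence, with `Ap = Fp ρ`, `Am = Fm ρ`:
`F12 = Ap Bm - (Ap - Am) Bp - (1/2) Ap ∑ ≥ V0 V1 (0.9984 - 0.002 * 1.0017 - 0.5 * 1.001 * 1.5681)
= V0 V1 * 0.21156`. `F3`: `w' = n^(91/550)`, `w'^3 = D`, `log D/log w' = 3`:
`th a gd (k3 n) true D ≤ V a (k3 n) (1 + u 3) = V1 V (kz n) (k3 n) (1 + u 3) ≤ V1 * (50/91)(1 + 1/1000) * 1.21566`
(`R_v3`, `S_tel`), and `1.001 * 0.549451 * 1.001 * 1.21566 = 0.66929 ≤ 0.67`. -/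
def S_main : Prop := R_ss → R_t2 → R_v3 → CH.S.S_tel → CH.S.S_mer → CH.S.S_ls → R_main

/-- Mertens' product and the range of the presieve. -/
def R_v1 : Prop := ∀ B0 : ℕ, 1 ≤ B0 → ∀ᶠ n : ℕ in atTop, ∀ z : ℕ, n ≤ z ^ B0 →
  (z : ℝ) ≤ (n : ℝ) ^ (1 / 1000 : ℝ) →
  10 * Real.log z ≤ V (z + 1) (kz n) * Real.log n ∧ V (z + 1) (kz n) ≤ 1

/-- [CM v1] (uses CH.S tel, mer) Proof: `S_mer` with `ε = 1/100` for `a = z + 1` (large, `z ≥ n^(1/B0)`):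
`Mer ε a` with `n := a`, `w = n^(1/11) ≥ a`: `log a ≤ 1.01 V a (kz n) * (log n)/11`, and `11/1.01 ≥ 10`. -/
def S_v1 : Prop := CH.S.S_tel → CH.S.S_mer → R_v1

end Pool.Agent.CM.S
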